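import Pool.Agent.Work.MP_f714fc_ag.Tw.Sec

/-!
# The surfaces `Y(A, t)`: four affine charts; projective space and projective morphisms

`A` a ring, `t : A`.  Chart 0: coordinates `(z, p)`, chart 1: `(z, 1 / p)`, chart 2: `(w, q)`,
chart 3: `(w, 1 / q)`, where `w = 1 / z` and `q = z ^ 2 p + t z`.  It is a `P^1`-bundle over `P^1`:
for a field `A` it is the Hirzebruch surface `F_2` if `t = 0`, and `P^1 x P^1` if `t ≠ 0`.
-/

open CategoryTheory Limits TopologicalSpace AlgebraicGeometry Opposite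

attribute [-instance] CategoryTheory.catToReflQuiver

namespace Fdim

/-- the functions of the affine base on an open subset -/
noncomputable def str {A : CommRingCat.{0}} {X : Scheme.{0}} (π : X ⟶ Spec A) (U : X.Opens) :
    A →+* Γ(X, U) :=
  (rO (le_top : U ≤ ⊤)).comp ((Scheme.ΓSpecIso A).inv ≫ π.appTop).hom

/-- four affine charts of the surface `Y(A, t)` -/
structure YCharts (A : CommRingCat.{0}) (t : A) {X : Scheme.{0}} (π : X ⟶ Spec A) where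
  /-- the charts -/
  U : Fin 4 → X.Opens
  aff : ∀ i, IsAffineOpen (U i)
  cover : ⨆ i, U i = ⊤
  /-- the first coordinate: `z, z, w, w` -/
  x : ∀ i, Γ(X, U i)
  /-- the second coordinate: `p, 1 / p, q, 1 / q` -/
  y : ∀ i, Γ(X, U i)
  /-- every chart is an affine plane over `A` -/
  bij : ∀ i, Function.Bijective (MvPolynomial.eval₂Hom (str π (U i)) ![x i, y i])
  b01 : U 0 ⊓ U 1 = X.basicOpen (y 0)
  b10 : U 0 ⊓ U 1 = X.basicOpen (y 1)
  b23 : U 2 ⊓ U 3 = X.basicOpen (y 2)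
  b32 : U 2 ⊓ U 3 = X.basicOpen (y 3)
  b02 : U 0 ⊓ U 2 = X.basicOpen (x 0)
  b20 : U 0 ⊓ U 2 = X.basicOpen (x 2)
  b03 : U 0 ⊓ U 3 = X.basicOpen (x 0 * (x 0 * y 0 + str π _ t))
  b30 : U 0 ⊓ U 3 = X.basicOpen (x 3 * y 3)
  b12 : U 1 ⊓ U 2 = X.basicOpen (x 1 * y 1)
  b21 : U 1 ⊓ U 2 = X.basicOpen (x 2 * (x 2 * y 2 - str π _ t))
  b13 : U 1 ⊓ U 3 = X.basicOpen (x 1 * (x 1 + str π _ t * y 1))
  b31 : U 1 ⊓ U 3 = X.basicOpen (x 3 * (x 3 - str π _ t * y 3))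
  /-- `z = z` -/
  r01x : rO (inf_le_left : U 0 ⊓ U 1 ≤ U 0) (x 0) = rO inf_le_right (x 1)
  /-- `p p' = 1` -/
  r01y : rO (inf_le_left : U 0 ⊓ U 1 ≤ U 0) (y 0) * rO inf_le_right (y 1) = 1
  /-- `w = w` -/
  r23x : rO (inf_le_left : U 2 ⊓ U 3 ≤ U 2) (x 2) = rO inf_le_right (x 3)
  /-- `q q' = 1` -/
  r23y : rO (inf_le_left : U 2 ⊓ U 3 ≤ U 2) (y 2) * rO inf_le_right (y 3) = 1
  /-- `z w = 1` -/
  r02x : rO (inf_le_left : U 0 ⊓ U 2 ≤ U 0) (x 0) * rO inf_le_right (x 2) = 1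
  /-- `q = z ^ 2 p + t z` -/
  r02y : rO (inf_le_right : U 0 ⊓ U 2 ≤ U 2) (y 2) =
    rO inf_le_left (x 0 ^ 2 * y 0 + str π _ t * x 0)
  /-- `z w = 1` -/
  r03x : rO (inf_le_left : U 0 ⊓ U 3 ≤ U 0) (x 0) * rO inf_le_right (x 3) = 1
  /-- `q' (z ^ 2 p + t z) = 1` -/
  r03y : rO (inf_le_right : U 0 ⊓ U 3 ≤ U 3) (y 3) *
    rO inf_le_left (x 0 ^ 2 * y 0 + str π _ t * x 0) = 1
  /-- `z w = 1` -/
  r12x : rO (inf_le_left : U 1 ⊓ U 2 ≤ U 1) (x 1) * rO inf_le_right (x 2) = 1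
  /-- `p' (w ^ 2 q - t w) = 1` -/
  r12y : rO (inf_le_left : U 1 ⊓ U 2 ≤ U 1) (y 1) *
    rO inf_le_right (x 2 ^ 2 * y 2 - str π _ t * x 2) = 1
  /-- `z w = 1` -/
  r13x : rO (inf_le_left : U 1 ⊓ U 3 ≤ U 1) (x 1) * rO inf_le_right (x 3) = 1
  /-- `q' z (z + t p') = p'` -/
  r13y : rO (inf_le_right : U 1 ⊓ U 3 ≤ U 3) (y 3) *
    rO inf_le_left (x 1 * (x 1 + str π _ t * y 1)) = rO inf_le_left (y 1)

/-! ## Projective space -/

/-- the grading of the polynomial ring -/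
noncomputable def grP (k : Type) [CommRing k] (N : ℕ) :
    ℕ → Submodule k (MvPolynomial (Fin (N + 1)) k) :=
  MvPolynomial.homogeneousSubmodule (Fin (N + 1)) k

noncomputable instance (k : Type) [CommRing k] (N : ℕ) : GradedAlgebra (grP k N) :=
  MvPolynomial.gradedAlgebra

/-- projective space of dimension `N` over `k` -/
noncomputable def PN (k : Type) [CommRing k] (N : ℕ) : Scheme.{0} := Proj (grP k N)

/-- the structure morphism of projective space -/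
noncomputable def PN.str (k : Type) [CommRing k] (N : ℕ) : PN k N ⟶ Spec (.of k) :=
  Proj.toSpecZero (grP k N) ≫ Spec.map (CommRingCat.ofHom (algebraMap k (grP k N 0)))

/-- `π : X ⟶ S` is projective, for a scheme `S` over `k`: it factors through a closed immersion
of `X` into `P^N x S` -/
def IsProjective (k : Type) [CommRing k] {X S : Scheme.{0}} (π : X ⟶ S) (s : S ⟶ Spec (.of k)) :
    Prop :=
  ∃ (N : ℕ) (i : X ⟶ pullback (PN.str k N) s), IsClosedImmersion i ∧ i ≫ pullback.snd _ _ = π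

end Fdim
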