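import Pool.Agent.Work.MP_f714fc_ag.Sch.Charts

/-!
# The surfaces `Y(A, t)` are smooth over `A` and noetherian; projective morphisms are proper
-/

open CategoryTheory Limits TopologicalSpace AlgebraicGeometry Opposite

attribute [-instance] CategoryTheory.catToReflQuiver

namespace Fdim

/-! ### Polynomial rings are standard smooth -/

/-- the presentation of the polynomial ring without relations -/
noncomputable def mvPres (R : Type) [CommRing R] (n : ℕ) :
    Algebra.PreSubmersivePresentation R (MvPolynomial (Fin n) R) (Fin n) PEmpty.{1} where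
  toGenerators := Algebra.Generators.mvPolynomial R (Fin n)
  relation := PEmpty.elim
  span_range_relation_eq_ker := by
    rw [Set.range_eq_empty, Ideal.span_empty, Algebra.Generators.ker_eq_ker_aeval_val]
    symm
    rw [← RingHom.injective_iff_ker_eq_bot]
    intro a b hab
    have h : ∀ c : MvPolynomial (Fin n) R,
        MvPolynomial.aeval (Algebra.Generators.mvPolynomial R (Fin n)).val c = c := fun c =>
      MvPolynomial.aeval_X_left_apply c
    exact ((h a).symm.trans hab).trans (h b)
  map := PEmpty.elim
  map_inj a _ _ := a.elim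

theorem isStd_mvPolynomial (R : Type) [CommRing R] (n : ℕ) :
    Algebra.IsStandardSmoothOfRelativeDimension n R (MvPolynomial (Fin n) R) := by
  have hjac : (mvPres R n).jacobian = 1 := by
    rw [Algebra.PreSubmersivePresentation.jacobian_eq_jacobiMatrix_det, Matrix.det_isEmpty,
      map_one]
  refine Algebra.SubmersivePresentation.isStandardSmoothOfRelativeDimension
    (P := { toPreSubmersivePresentation := mvPres R n, jacobian_isUnit := by
              rw [hjac]; exact isUnit_one }) ?_
  simp [Algebra.Presentation.dimension]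

theorem std_of_bijective {R S : Type} [CommRing R] [CommRing S] (f : R →+* S) (v : Fin 2 → S)
    (h : Function.Bijective (MvPolynomial.eval₂Hom f v)) :
    RingHom.IsStandardSmoothOfRelativeDimension 2 f := by
  have h1 : RingHom.IsStandardSmoothOfRelativeDimension 2
      (MvPolynomial.C : R →+* MvPolynomial (Fin 2) R) := by
    have h2 := isStd_mvPolynomial R 2
    rw [← MvPolynomial.algebraMap_eq]
    exact (RingHom.isStandardSmoothOfRelativeDimension_algebraMap 2).2 h2
  have h2 := (RingHom.IsStandardSmoothOfRelativeDimension.equiv (RingEquiv.ofBijective _ h)).comp h1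
  have h3 : ((RingEquiv.ofBijective _ h : MvPolynomial (Fin 2) R ≃+* S) :
      MvPolynomial (Fin 2) R →+* S).comp MvPolynomial.C = f := by
    ext a
    simp
  rw [h3] at h2
  simpa using h2

theorem YCharts.smooth {A : CommRingCat.{0}} {t : A} {X : Scheme.{0}} {π : X ⟶ Spec A}
    (D : YCharts A t π) : SmoothOfRelativeDimension 2 π := by
  refine ⟨fun x => ?_⟩
  have hx : x ∈ (⨆ i, D.U i : X.Opens) := by rw [D.cover]; trivial
  obtain ⟨i, hi⟩ := Opens.mem_iSup.1 hx
  refine ⟨⊤, isAffineOpen_top _, D.U i, D.aff i, hi, le_top, ?_⟩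
  have h1 := std_of_bijective _ _ (D.bij i)
  have h2 : (π.appLE ⊤ (D.U i) le_top).hom =
      (str π (D.U i)).comp (Scheme.ΓSpecIso A).hom.hom := by
    have h3 : π.appLE ⊤ (D.U i) le_top = (Scheme.ΓSpecIso A).hom ≫
        (Scheme.ΓSpecIso A).inv ≫ π.appTop ≫ X.presheaf.map (homOfLE le_top).op := by
      rw [Iso.hom_inv_id_assoc]
      rfl
    rw [h3]
    rfl
  rw [h2]
  have h4 := h1.comp (RingHom.IsStandardSmoothOfRelativeDimension.equiv
    (Scheme.ΓSpecIso A).commRingCatIsoToRingEquiv)
  exact h4

theorem YCharts.isNoetherian {A : CommRingCat.{0}} [IsNoetherianRing A] {t : A} {X : Scheme.{0}}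
    {π : X ⟶ Spec A} (D : YCharts A t π) : IsNoetherian X := by
  refine (isNoetherian_iff_of_finite_iSup_eq_top (S := fun i => ⟨D.U i, D.aff i⟩) D.cover).2
    fun i => ?_
  exact isNoetherianRing_of_ringEquiv (MvPolynomial (Fin 2) A) (RingEquiv.ofBijective _ (D.bij i))

/-! ### Projective space is proper -/

theorem bijective_grP_zero (k : Type) [CommRing k] (N : ℕ) :
    Function.Bijective (algebraMap k (grP k N 0)) := by
  constructor
  · intro a b hab
    have h1 := congrArg (fun x : grP k N 0 => (x : MvPolynomial (Fin (N + 1)) k)) hab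
    exact MvPolynomial.C_injective _ _ h1
  · intro f
    have h1 : (f : MvPolynomial (Fin (N + 1)) k).totalDegree = 0 :=
      (MvPolynomial.totalDegree_zero_iff_isHomogeneous _).2 f.2
    rw [MvPolynomial.totalDegree_eq_zero_iff_eq_C] at h1
    exact ⟨_, Subtype.ext h1.symm⟩

instance finiteType_grP (k : Type) [CommRing k] (N : ℕ) :
    Algebra.FiniteType (grP k N 0) (MvPolynomial (Fin (N + 1)) k) := by
  have h1 : IsScalarTower k (grP k N 0) (MvPolynomial (Fin (N + 1)) k) :=
    IsScalarTower.of_algebraMap_eq (R := k) (S := grP k N 0) (A := MvPolynomial (Fin (N + 1)) k)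
      fun _ => rfl
  exact Algebra.FiniteType.of_restrictScalars_finiteType k _ _

instance PN.isProper (k : Type) [CommRing k] (N : ℕ) : IsProper (PN.str k N) := by
  have h1 : IsIso (CommRingCat.ofHom (algebraMap k (grP k N 0))) := by
    rw [ConcreteCategory.isIso_iff_bijective]
    exact bijective_grP_zero k N
  have h2 : IsProper (Proj.toSpecZero (grP k N)) := inferInstance
  have h3 : IsProper (Spec.map (CommRingCat.ofHom (algebraMap k (grP k N 0)))) := inferInstance
  exact MorphismProperty.comp_mem (@IsProper) _ _ h2 h3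

theorem IsProjective.isProper {k : Type} [CommRing k] {X S : Scheme.{0}} {π : X ⟶ S}
    {s : S ⟶ Spec (.of k)} (hp : IsProjective k π s) : IsProper π := by
  obtain ⟨N, i, hi, rfl⟩ := hp
  have h2 : IsProper (pullback.snd (PN.str k N) s) := inferInstance
  infer_instance

end Fdim
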