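import Pool.Agent.Work.MP_f714fc_ag.Sch.Charts

/-!
# Base change of the four affine charts and of projective morphisms
-/

open CategoryTheory Limits TopologicalSpace AlgebraicGeometry Opposite

attribute [-instance] CategoryTheory.catToReflQuiver

namespace Fdim

set_option linter.unusedSimpArgs false

section algebra

theorem bijective_eval₂Hom_of_isPushout {A A' B B' : CommRingCat.{0}} {s : A ⟶ B} {φ : A ⟶ A'}
    {g : B ⟶ B'} {s' : A' ⟶ B'} (h : IsPushout s φ g s') (x y : B)
    (hb : Function.Bijective (MvPolynomial.eval₂Hom s.hom ![x, y])) :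
    Function.Bijective (MvPolynomial.eval₂Hom s'.hom ![g.hom x, g.hom y]) := by
  let P : CommRingCat.{0} := .of (MvPolynomial (Fin 2) A)
  let P' : CommRingCat.{0} := .of (MvPolynomial (Fin 2) A')
  let e : P ≅ B := (RingEquiv.ofBijective _ hb).toCommRingCatIso
  let _ : Algebra A A' := φ.hom.toAlgebra
  let _ : Algebra (MvPolynomial (Fin 2) A) (MvPolynomial (Fin 2) A') :=
    MvPolynomial.algebraMvPolynomial
  have h1 : IsPushout (CommRingCat.ofHom (MvPolynomial.C (σ := Fin 2) (R := A))) φ
      (CommRingCat.ofHom (MvPolynomial.map (σ := Fin 2) φ.hom))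
      (CommRingCat.ofHom (MvPolynomial.C (σ := Fin 2) (R := A'))) :=
    CommRingCat.isPushout_of_isPushout A (MvPolynomial (Fin 2) A) A' (MvPolynomial (Fin 2) A')
  have he : ∀ p : MvPolynomial (Fin 2) A, e.hom.hom p = MvPolynomial.eval₂Hom s.hom ![x, y] p :=
    fun _ => rfl
  have h2 : IsPushout (CommRingCat.ofHom (MvPolynomial.C (σ := Fin 2) (R := A))) φ
      (e.hom ≫ g) s' := by
    refine IsPushout.of_iso h (Iso.refl _) e.symm (Iso.refl _) (Iso.refl _) ?_ ?_ ?_ ?_
    · simp only [Iso.refl_hom, Category.id_comp, Iso.symm_hom]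
      rw [Iso.comp_inv_eq]
      ext a
      exact ((he (MvPolynomial.C a)).trans (by simp)).symm
    · simp
    · simp
    · simp
  let i : P' ≅ B' := h1.isoIsPushout _ _ h2
  have hi : i.hom.hom = MvPolynomial.eval₂Hom s'.hom ![g.hom x, g.hom y] := by
    refine MvPolynomial.ringHom_ext (fun a => ?_) (fun j => ?_)
    · have h3 : CommRingCat.ofHom (MvPolynomial.C (σ := Fin 2) (R := A')) ≫ i.hom = s' :=
        h1.inr_isoIsPushout_hom _ _ h2
      have h4 := congrArg (fun f => f.hom a) h3
      exact h4.trans (by simp)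
    · have h3 : CommRingCat.ofHom (MvPolynomial.map (σ := Fin 2) φ.hom) ≫ i.hom = e.hom ≫ g :=
        h1.inl_isoIsPushout_hom _ _ h2
      have h4 := congrArg (fun f => f.hom (MvPolynomial.X j)) h3
      have h5 : i.hom.hom (MvPolynomial.map φ.hom (MvPolynomial.X j)) =
          g.hom (MvPolynomial.eval₂Hom s.hom ![x, y] (MvPolynomial.X j)) := h4
      rw [MvPolynomial.map_X] at h5
      rw [h5]
      fin_cases j <;> simp
  rw [← hi]
  exact (ConcreteCategory.bijective_of_isIso i.hom)

end algebra

section scheme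

variable {X X' : Scheme.{0}} (g : X' ⟶ X)

theorem app_rO {U V : X.Opens} (h : V ≤ U) (s : Γ(X, U)) :
    (g.app V).hom (rO h s) = rO (g.preimage_mono h) ((g.app U).hom s) := by
  simp only [rO]
  rw [← CommRingCat.comp_apply, ← CommRingCat.comp_apply, g.naturality]
  rfl

variable {g} {A A' : CommRingCat.{0}} {φ : A ⟶ A'} {π : X ⟶ Spec A} {π' : X' ⟶ Spec A'}

theorem ofHom_str {A : CommRingCat.{0}} {X : Scheme.{0}} (π : X ⟶ Spec A) (U : X.Opens) :
    CommRingCat.ofHom (str π U) = (Scheme.ΓSpecIso A).inv ≫ π.appLE ⊤ U le_top := rfl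

theorem app_str (h : g ≫ π = π' ≫ Spec.map φ) (U : X.Opens) (a : A) :
    (g.app U).hom (str π U a) = str π' (g ⁻¹ᵁ U) (φ.hom a) := by
  have h1 : (Scheme.ΓSpecIso A).inv ≫ π.appTop ≫ g.appTop =
      φ ≫ (Scheme.ΓSpecIso A').inv ≫ π'.appTop := by
    rw [← Scheme.Hom.comp_appTop, h, Scheme.Hom.comp_appTop,
      Scheme.ΓSpecIso_inv_naturality_assoc]
  have h2 := congrArg (fun f => f.hom a) h1
  simp only [str, RingHom.comp_apply]
  rw [app_rO]
  exact congrArg (rO le_top) h2

theorem isPushout_str (h : IsPullback g π' π (Spec.map φ)) {U : X.Opens} (hU : IsAffineOpen U) :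
    IsPushout (CommRingCat.ofHom (str π U)) φ (g.app U)
      (CommRingCat.ofHom (str π' (g ⁻¹ᵁ U))) := by
  have h1 : IsPushout (π.appLE ⊤ U le_top) ((Spec.map φ).appLE ⊤ ⊤ le_top)
      (g.appLE U (g ⁻¹ᵁ U) le_rfl) (π'.appLE ⊤ (g ⁻¹ᵁ U) le_top) :=
    (isIso_pushoutSection_iff h (US := ⊤) (UT := ⊤) (UX := U) (UY := g ⁻¹ᵁ U)
      le_top le_top (by simp)).mp
      (isIso_pushoutSection_of_isAffineOpen h le_top le_top (by simp)
        (isAffineOpen_top _) (isAffineOpen_top _) hU)
  have e2 : (Spec.map φ).appLE ⊤ ⊤ le_top = (Spec.map φ).appTop :=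
    Scheme.Hom.appLE_eq_app _
  have e3 : g.appLE U (g ⁻¹ᵁ U) le_rfl = g.app U := Scheme.Hom.appLE_eq_app _
  rw [e2, e3] at h1
  refine h1.of_iso (Scheme.ΓSpecIso A) (Iso.refl _) (Scheme.ΓSpecIso A') (Iso.refl _)
    ?_ ?_ ?_ ?_
  · rw [ofHom_str]
    simp
  · exact (Scheme.ΓSpecIso_naturality φ)
  · simp
  · rw [ofHom_str]
    simp

/-- **R5**: base change of the four charts -/
theorem YCharts.baseChange {A A' : CommRingCat.{0}} (φ : A ⟶ A') {t : A} {X X' : Scheme.{0}}
    {π : X ⟶ Spec A} {π' : X' ⟶ Spec A'} {g : X' ⟶ X} (h : IsPullback g π' π (Spec.map φ))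
    (D : YCharts A t π) : Nonempty (YCharts A' (φ.hom t) π') := by
  have hw := h.w
  have haff : IsAffineHom g := MorphismProperty.of_isPullback h.flip inferInstance
  have hc : g ⁻¹ᵁ (⨆ i, D.U i) = ⊤ := by rw [D.cover]; rfl
  refine ⟨{
    U := fun i => g ⁻¹ᵁ D.U i
    aff := fun i => (D.aff i).preimage g
    cover := by
      rw [← hc]
      exact (Scheme.Hom.preimage_iSup ..).symm
    x := fun i => (g.app (D.U i)).hom (D.x i)
    y := fun i => (g.app (D.U i)).hom (D.y i)
    bij := fun i => bijective_eval₂Hom_of_isPushout (isPushout_str h (D.aff i)) _ _ (D.bij i)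
    b01 := ?_, b10 := ?_, b23 := ?_, b32 := ?_, b02 := ?_, b20 := ?_, b03 := ?_, b30 := ?_,
    b12 := ?_, b21 := ?_, b13 := ?_, b31 := ?_, r01x := ?_, r01y := ?_, r23x := ?_, r23y := ?_,
    r02x := ?_, r02y := ?_, r03x := ?_, r03y := ?_, r12x := ?_, r12y := ?_, r13x := ?_,
    r13y := ?_ }⟩
  · have e := congrArg (fun V => g ⁻¹ᵁ V) D.b01
    simp only [Scheme.preimage_basicOpen] at e
    try simp only [map_mul, map_add, map_sub, app_str hw] at e
    exact e
  · have e := congrArg (fun V => g ⁻¹ᵁ V) D.b10
    simp only [Scheme.preimage_basicOpen] at e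
    try simp only [map_mul, map_add, map_sub, app_str hw] at e
    exact e
  · have e := congrArg (fun V => g ⁻¹ᵁ V) D.b23
    simp only [Scheme.preimage_basicOpen] at e
    try simp only [map_mul, map_add, map_sub, app_str hw] at e
    exact e
  · have e := congrArg (fun V => g ⁻¹ᵁ V) D.b32
    simp only [Scheme.preimage_basicOpen] at e
    try simp only [map_mul, map_add, map_sub, app_str hw] at e
    exact e
  · have e := congrArg (fun V => g ⁻¹ᵁ V) D.b02
    simp only [Scheme.preimage_basicOpen] at e
    try simp only [map_mul, map_add, map_sub, app_str hw] at e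
    exact e
  · have e := congrArg (fun V => g ⁻¹ᵁ V) D.b20
    simp only [Scheme.preimage_basicOpen] at e
    try simp only [map_mul, map_add, map_sub, app_str hw] at e
    exact e
  · have e := congrArg (fun V => g ⁻¹ᵁ V) D.b03
    simp only [Scheme.preimage_basicOpen] at e
    try simp only [map_mul, map_add, map_sub, app_str hw] at e
    exact e
  · have e := congrArg (fun V => g ⁻¹ᵁ V) D.b30
    simp only [Scheme.preimage_basicOpen] at e
    try simp only [map_mul, map_add, map_sub, app_str hw] at e
    exact e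
  · have e := congrArg (fun V => g ⁻¹ᵁ V) D.b12
    simp only [Scheme.preimage_basicOpen] at e
    try simp only [map_mul, map_add, map_sub, app_str hw] at e
    exact e
  · have e := congrArg (fun V => g ⁻¹ᵁ V) D.b21
    simp only [Scheme.preimage_basicOpen] at e
    try simp only [map_mul, map_add, map_sub, app_str hw] at e
    exact e
  · have e := congrArg (fun V => g ⁻¹ᵁ V) D.b13
    simp only [Scheme.preimage_basicOpen] at e
    try simp only [map_mul, map_add, map_sub, app_str hw] at e
    exact e
  · have e := congrArg (fun V => g ⁻¹ᵁ V) D.b31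
    simp only [Scheme.preimage_basicOpen] at e
    try simp only [map_mul, map_add, map_sub, app_str hw] at e
    exact e
  · have e := congrArg (g.app (D.U 0 ⊓ D.U 1)).hom D.r01x
    simp only [app_rO, map_mul, map_add, map_sub, map_pow, map_one, app_str hw] at e
    try simp only [map_mul, map_add, map_sub, map_pow]
    exact e
  · have e := congrArg (g.app (D.U 0 ⊓ D.U 1)).hom D.r01y
    simp only [app_rO, map_mul, map_add, map_sub, map_pow, map_one, app_str hw] at e
    try simp only [map_mul, map_add, map_sub, map_pow]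
    exact e
  · have e := congrArg (g.app (D.U 2 ⊓ D.U 3)).hom D.r23x
    simp only [app_rO, map_mul, map_add, map_sub, map_pow, map_one, app_str hw] at e
    try simp only [map_mul, map_add, map_sub, map_pow]
    exact e
  · have e := congrArg (g.app (D.U 2 ⊓ D.U 3)).hom D.r23y
    simp only [app_rO, map_mul, map_add, map_sub, map_pow, map_one, app_str hw] at e
    try simp only [map_mul, map_add, map_sub, map_pow]
    exact e
  · have e := congrArg (g.app (D.U 0 ⊓ D.U 2)).hom D.r02x
    simp only [app_rO, map_mul, map_add, map_sub, map_pow, map_one, app_str hw] at e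
    try simp only [map_mul, map_add, map_sub, map_pow]
    exact e
  · have e := congrArg (g.app (D.U 0 ⊓ D.U 2)).hom D.r02y
    simp only [app_rO, map_mul, map_add, map_sub, map_pow, map_one, app_str hw] at e
    try simp only [map_mul, map_add, map_sub, map_pow]
    exact e
  · have e := congrArg (g.app (D.U 0 ⊓ D.U 3)).hom D.r03x
    simp only [app_rO, map_mul, map_add, map_sub, map_pow, map_one, app_str hw] at e
    try simp only [map_mul, map_add, map_sub, map_pow]
    exact e
  · have e := congrArg (g.app (D.U 0 ⊓ D.U 3)).hom D.r03y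
    simp only [app_rO, map_mul, map_add, map_sub, map_pow, map_one, app_str hw] at e
    try simp only [map_mul, map_add, map_sub, map_pow]
    exact e
  · have e := congrArg (g.app (D.U 1 ⊓ D.U 2)).hom D.r12x
    simp only [app_rO, map_mul, map_add, map_sub, map_pow, map_one, app_str hw] at e
    try simp only [map_mul, map_add, map_sub, map_pow]
    exact e
  · have e := congrArg (g.app (D.U 1 ⊓ D.U 2)).hom D.r12y
    simp only [app_rO, map_mul, map_add, map_sub, map_pow, map_one, app_str hw] at e
    try simp only [map_mul, map_add, map_sub, map_pow]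
    exact e
  · have e := congrArg (g.app (D.U 1 ⊓ D.U 3)).hom D.r13x
    simp only [app_rO, map_mul, map_add, map_sub, map_pow, map_one, app_str hw] at e
    try simp only [map_mul, map_add, map_sub, map_pow]
    exact e
  · have e := congrArg (g.app (D.U 1 ⊓ D.U 3)).hom D.r13y
    simp only [app_rO, map_mul, map_add, map_sub, map_pow, map_one, app_str hw] at e
    try simp only [map_mul, map_add, map_sub, map_pow]
    exact e

/-- **R5**: base change of projective morphisms -/
theorem IsProjective.baseChange {k : Type} [CommRing k] {X S X' S' : Scheme.{0}} {π : X ⟶ S}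
    {s : S ⟶ Spec (.of k)} (hp : IsProjective k π s) {π' : X' ⟶ S'} {g : X' ⟶ X} {f : S' ⟶ S}
    (h : IsPullback g π' π f) : IsProjective k π' (f ≫ s) := by
  obtain ⟨N, i, hi, hi2⟩ := hp
  let q : pullback (PN.str k N) (f ≫ s) ⟶ pullback (PN.str k N) s :=
    pullback.lift (pullback.fst _ _) (pullback.snd _ _ ≫ f)
      (by rw [Category.assoc, pullback.condition])
  have hq1 : q ≫ pullback.fst (PN.str k N) s = pullback.fst _ _ := pullback.lift_fst _ _ _
  have hq2 : q ≫ pullback.snd (PN.str k N) s = pullback.snd _ _ ≫ f := pullback.lift_snd _ _ _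
  have h1 : IsPullback (q ≫ pullback.fst (PN.str k N) s) (pullback.snd _ _) (PN.str k N)
      (f ≫ s) := by
    rw [hq1]
    exact IsPullback.of_hasPullback _ _
  have h2 : IsPullback q (pullback.snd _ _) (pullback.snd (PN.str k N) s) f :=
    IsPullback.of_right h1 hq2 (IsPullback.of_hasPullback _ _)
  let i' : X' ⟶ pullback (PN.str k N) (f ≫ s) :=
    h2.lift (g ≫ i) π' (by rw [Category.assoc, hi2, h.w])
  have hi1' : i' ≫ q = g ≫ i := h2.lift_fst _ _ _
  have hi2' : i' ≫ pullback.snd _ _ = π' := h2.lift_snd _ _ _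
  have h3 : IsPullback g (i' ≫ pullback.snd _ _) (i ≫ pullback.snd (PN.str k N) s) f := by
    rw [hi2', hi2]
    exact h
  have h4 : IsPullback g i' i q := IsPullback.of_bot h3 hi1'.symm h2
  exact ⟨N, i', MorphismProperty.of_isPullback h4 hi, hi2'⟩

end scheme

end Fdim
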