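import Pool.Agent.Work.MP_f714fc_ag.Sch.Charts

/-!
# The surface `Y(A, t)` is integral (`A` a domain), of Krull dimension two (`A` a field)
-/

open CategoryTheory Limits TopologicalSpace AlgebraicGeometry Opposite Topology

attribute [-instance] CategoryTheory.catToReflQuiver

namespace Fdim

/-! ## Krull dimension of a union of open subsets -/

theorem topologicalKrullDim_le_of_cover {X : Type*} [TopologicalSpace X] {ι : Type*}
    (U : ι → Opens X) (hU : ⨆ i, U i = ⊤) {n : WithBot ℕ∞}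
    (h : ∀ i, topologicalKrullDim (U i) ≤ n) : topologicalKrullDim X ≤ n := by
  unfold topologicalKrullDim
  rw [Order.krullDim_eq_iSup_coheight]
  refine iSup_le fun Z => ?_
  obtain ⟨x, hx⟩ := Z.isIrreducible.nonempty
  have hx' : x ∈ ⨆ i, U i := by
    rw [hU]
    trivial
  obtain ⟨i, hi⟩ := Opens.mem_iSup.1 hx'
  have he : IsOpenEmbedding ((↑) : U i → X) := (U i).isOpen.isOpenEmbedding_subtypeVal
  set V : {V : IrreducibleCloseds X | (((↑) : U i → X) ⁻¹' V).Nonempty} :=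
    ⟨Z, ⟨⟨x, hi⟩, hx⟩⟩
  set W := (IrreducibleCloseds.orderIsoOfIsOpenEmbedding _ he).symm V
  have h1 : IrreducibleCloseds.map _ he.continuous W = Z := by
    have h2 := (IrreducibleCloseds.orderIsoOfIsOpenEmbedding _ he).apply_symm_apply V
    exact congrArg Subtype.val h2
  rw [← h1, he.coheight_map]
  exact (Order.coheight_le_krullDim W).trans (h i)

variable {A : CommRingCat.{0}} {t : A} {X : Scheme.{0}} {π : X ⟶ Spec A}

/-- the ring of a chart -/
noncomputable def YCharts.ringEquiv (D : YCharts A t π) (i : Fin 4) :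
    MvPolynomial (Fin 2) A ≃+* Γ(X, D.U i) :=
  RingEquiv.ofBijective _ (D.bij i)

theorem YCharts.isDomain [IsDomain A] (D : YCharts A t π) (i : Fin 4) : IsDomain Γ(X, D.U i) :=
  (D.ringEquiv i).symm.toMulEquiv.isDomain _

theorem YCharts.ne_zero (D : YCharts A t π) (i : Fin 4) {P : MvPolynomial (Fin 2) A}
    (hP : P ≠ 0) : D.ringEquiv i P ≠ 0 := fun h => hP ((D.ringEquiv i).map_eq_zero_iff.1 h)

theorem YCharts.equiv_X0 (D : YCharts A t π) (i : Fin 4) :
    D.ringEquiv i (MvPolynomial.X 0) = D.x i := by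
  simp [YCharts.ringEquiv]

theorem YCharts.equiv_X1 (D : YCharts A t π) (i : Fin 4) :
    D.ringEquiv i (MvPolynomial.X 1) = D.y i := by
  simp [YCharts.ringEquiv]

theorem YCharts.equiv_C (D : YCharts A t π) (i : Fin 4) (a : A) :
    D.ringEquiv i (MvPolynomial.C a) = str π (D.U i) a := by
  simp [YCharts.ringEquiv]

theorem YCharts.isIntegral_chart [IsDomain A] (D : YCharts A t π) (i : Fin 4) :
    IsIntegral (D.U i).toScheme := by
  have := D.isDomain i
  exact IsIntegral.of_isIso (D.aff i).isoSpec.inv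

theorem YCharts.isReduced [IsDomain A] (D : YCharts A t π) : IsReduced X := by
  have hs : ∀ x : X, _root_.IsReduced (X.presheaf.stalk x) := by
    intro x
    have hx : x ∈ ⨆ i, D.U i := by
      rw [D.cover]
      trivial
    obtain ⟨i, hi⟩ := Opens.mem_iSup.1 hx
    have h0 := D.isIntegral_chart i
    have h0' : IsReduced (D.U i).toScheme := isReduced_of_isIntegral _
    have h1 : _root_.IsReduced ((D.U i).toScheme.presheaf.stalk ⟨x, hi⟩) :=
      isReduced_stalk_of_isReduced _ _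
    have h2 := ((D.U i).stalkIso ⟨x, hi⟩).commRingCatIsoToRingEquiv
    exact isReduced_of_injective h2.symm h2.symm.injective
  exact isReduced_of_isReduced_stalk X

theorem YCharts.inter_nonempty [IsDomain A] (D : YCharts A t π) (i j : Fin 4) :
    (D.U i ⊓ D.U j : X.Opens) ≠ ⊥ := by
  have hr := D.isReduced
  have key : ∀ {i : Fin 4} {s : Γ(X, D.U i)} (P : MvPolynomial (Fin 2) A), P ≠ 0 →
      D.ringEquiv i P = s → X.basicOpen s ≠ ⊥ := by
    intro i s P hP hs
    rw [Ne, basicOpen_eq_bot_iff, ← hs]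
    exact D.ne_zero i hP
  have h01 : (D.U 0 ⊓ D.U 1 : X.Opens) ≠ ⊥ := by
    rw [D.b01]
    exact key (MvPolynomial.X 1) (MvPolynomial.X_ne_zero _) (D.equiv_X1 0)
  have h23 : (D.U 2 ⊓ D.U 3 : X.Opens) ≠ ⊥ := by
    rw [D.b23]
    exact key (MvPolynomial.X 1) (MvPolynomial.X_ne_zero _) (D.equiv_X1 2)
  have h02 : (D.U 0 ⊓ D.U 2 : X.Opens) ≠ ⊥ := by
    rw [D.b02]
    exact key (MvPolynomial.X 0) (MvPolynomial.X_ne_zero _) (D.equiv_X0 0)
  have h03 : (D.U 0 ⊓ D.U 3 : X.Opens) ≠ ⊥ := by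
    rw [D.b30]
    refine key (MvPolynomial.X 0 * MvPolynomial.X 1)
      (mul_ne_zero (MvPolynomial.X_ne_zero _) (MvPolynomial.X_ne_zero _)) ?_
    rw [map_mul, D.equiv_X0, D.equiv_X1]
  have h12 : (D.U 1 ⊓ D.U 2 : X.Opens) ≠ ⊥ := by
    rw [D.b12]
    refine key (MvPolynomial.X 0 * MvPolynomial.X 1)
      (mul_ne_zero (MvPolynomial.X_ne_zero _) (MvPolynomial.X_ne_zero _)) ?_
    rw [map_mul, D.equiv_X0, D.equiv_X1]
  have h13 : (D.U 1 ⊓ D.U 3 : X.Opens) ≠ ⊥ := by
    rw [D.b13]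
    refine key (MvPolynomial.X 0 * (MvPolynomial.X 0 + MvPolynomial.C t * MvPolynomial.X 1))
      (mul_ne_zero (MvPolynomial.X_ne_zero _) ?_) ?_
    · intro h
      have h1 := congrArg (MvPolynomial.eval ![(1 : A), 0]) h
      simp at h1
    · rw [map_mul, map_add, map_mul, D.equiv_X0, D.equiv_X1, D.equiv_C]
  have hii : ∀ i, (D.U i : X.Opens) ≠ ⊥ := by
    intro i h
    have := (D.isIntegral_chart i).nonempty
    obtain ⟨x⟩ := this
    exact (h.le x.2 : x.1 ∈ (⊥ : X.Opens))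
  fin_cases i <;> fin_cases j
  · rw [inf_idem]; exact hii _
  · exact h01
  · exact h02
  · exact h03
  · rw [inf_comm]; exact h01
  · rw [inf_idem]; exact hii _
  · exact h12
  · exact h13
  · rw [inf_comm]; exact h02
  · rw [inf_comm]; exact h12
  · rw [inf_idem]; exact hii _
  · exact h23
  · rw [inf_comm]; exact h03
  · rw [inf_comm]; exact h13
  · rw [inf_comm]; exact h23
  · rw [inf_idem]; exact hii _

/-- the surface is integral -/
theorem YCharts.isIntegral [IsDomain A] (D : YCharts A t π) : IsIntegral X := by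
  have hr := D.isReduced
  have hirr : ∀ i, PreirreducibleSpace (D.U i) := fun i =>
    have := D.isIntegral_chart i
    inferInstanceAs (PreirreducibleSpace (D.U i).toScheme)
  have hmeet : ∀ (i : Fin 4) (V W : X.Opens), (D.U i ⊓ V : X.Opens) ≠ ⊥ →
      (D.U i ⊓ W : X.Opens) ≠ ⊥ → (D.U i ⊓ V ⊓ W : X.Opens) ≠ ⊥ := by
    intro i V W hV hW
    have h1 : IsPreirreducible ((D.U i : X.Opens) : Set X) :=
      isPreirreducible_iff_preirreducibleSpace.2 (hirr i)
    have h2 := h1 V W V.2 W.2 (by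
      obtain ⟨x, hx⟩ := Opens.ne_bot_iff_nonempty _ |>.1 hV
      exact ⟨x, hx.1, hx.2⟩) (by
      obtain ⟨x, hx⟩ := Opens.ne_bot_iff_nonempty _ |>.1 hW
      exact ⟨x, hx.1, hx.2⟩)
    obtain ⟨x, hx1, hx2, hx3⟩ := h2
    exact (Opens.ne_bot_iff_nonempty _).2 ⟨x, ⟨hx1, hx2⟩, hx3⟩
  have hex : ∀ V : X.Opens, V ≠ ⊥ → ∃ i, (D.U i ⊓ V : X.Opens) ≠ ⊥ := by
    intro V hV
    obtain ⟨x, hx⟩ := (Opens.ne_bot_iff_nonempty _).1 hV
    have hx' : x ∈ ⨆ i, D.U i := by
      rw [D.cover]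
      trivial
    obtain ⟨i, hi⟩ := Opens.mem_iSup.1 hx'
    exact ⟨i, (Opens.ne_bot_iff_nonempty _).2 ⟨x, hi, hx⟩⟩
  have hirrX : IrreducibleSpace X := by
    have hpre : PreirreducibleSpace X := by
      constructor
      intro V W hV hW hVn hWn
      obtain ⟨x, -, hx⟩ := hVn
      obtain ⟨y, -, hy⟩ := hWn
      obtain ⟨i, hi⟩ := hex ⟨V, hV⟩ ((Opens.ne_bot_iff_nonempty _).2 ⟨x, hx⟩)
      obtain ⟨j, hj⟩ := hex ⟨W, hW⟩ ((Opens.ne_bot_iff_nonempty _).2 ⟨y, hy⟩)
      have h1 := hmeet i ⟨V, hV⟩ (D.U j) hi (D.inter_nonempty i j)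
      have h2 : (D.U j ⊓ ⟨V, hV⟩ : X.Opens) ≠ ⊥ := by
        obtain ⟨z, hz⟩ := (Opens.ne_bot_iff_nonempty _).1 h1
        exact (Opens.ne_bot_iff_nonempty _).2 ⟨z, hz.2, hz.1.2⟩
      have h3 := hmeet j ⟨V, hV⟩ ⟨W, hW⟩ h2 hj
      obtain ⟨z, hz⟩ := (Opens.ne_bot_iff_nonempty _).1 h3
      exact ⟨z, trivial, hz.1.2, hz.2⟩
    have hne : Nonempty X := by
      obtain ⟨z, hz⟩ := (Opens.ne_bot_iff_nonempty _).1 (D.inter_nonempty 0 0)
      exact ⟨z⟩
    exact { toPreirreducibleSpace := hpre, toNonempty := hne }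
  exact isIntegral_of_irreducibleSpace_of_isReduced X

theorem YCharts.krullDim_chart {k : Type} [Field k] {t : k} {X : Scheme.{0}}
    {π : X ⟶ Spec (.of k)} (D : YCharts (.of k) t π) (i : Fin 4) :
    _root_.topologicalKrullDim (D.U i) = 2 := by
  have h1 : _root_.topologicalKrullDim (D.U i) =
      _root_.topologicalKrullDim (Spec Γ(X, D.U i)) :=
    IsHomeomorph.topologicalKrullDim_eq _
      (Scheme.homeoOfIso (D.aff i).isoSpec).isHomeomorph
  have h2 : _root_.topologicalKrullDim (Spec Γ(X, D.U i)) = ringKrullDim Γ(X, D.U i) :=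
    PrimeSpectrum.topologicalKrullDim_eq_ringKrullDim _
  rw [h1, h2, ← ringKrullDim_eq_of_ringEquiv (D.ringEquiv i)]
  change ringKrullDim (MvPolynomial (Fin 2) k) = 2
  rw [MvPolynomial.ringKrullDim_of_isNoetherianRing, ringKrullDim_eq_zero_of_field]
  simp

/-- the surface has dimension two -/
theorem YCharts.topologicalKrullDim {k : Type} [Field k] {t : k} {X : Scheme.{0}}
    {π : X ⟶ Spec (.of k)} (D : YCharts (.of k) t π) :
    _root_.topologicalKrullDim X = 2 := by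
  apply le_antisymm
  · exact topologicalKrullDim_le_of_cover D.U D.cover fun i => (D.krullDim_chart i).le
  · rw [← D.krullDim_chart 0]
    exact topologicalKrullDim_subspace_le X _

end Fdim
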