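import Pool.Agent.Work.MP_f714fc_ag.Sch.Charts

/-!
# `Proj` of a graded algebra generated in degree one is projective
-/

open CategoryTheory Limits TopologicalSpace AlgebraicGeometry Opposite MvPolynomial
open HomogeneousLocalization

attribute [-instance] CategoryTheory.catToReflQuiver

namespace Fdim

/-! ### Closed immersions on a cover of the target -/

theorem surj_of_appLE {X Y : Scheme.{0}} (f : X ⟶ Y) (U : Y.Opens) (V : X.Opens)
    (h : f ⁻¹ᵁ U = V) (hs : Function.Surjective (f.appLE U V h.ge)) :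
    Function.Surjective (f.app U) := by
  subst h
  rwa [Scheme.Hom.app_eq_appLE]

theorem appLE_congr_hom {X Y : Scheme.{0}} {f g : X ⟶ Y} (h : f = g) (U : Y.Opens) (V : X.Opens)
    (e : V ≤ f ⁻¹ᵁ U) (e' : V ≤ g ⁻¹ᵁ U) : f.appLE U V e = g.appLE U V e' := by
  subst h
  rfl

theorem isClosedImmersion_of_cover {X Y : Scheme.{0}} (f : X ⟶ Y) {ι : Type*} (U : ι → Y.Opens)
    (hU : ⨆ i, U i = ⊤) (hA : ∀ i, IsAffineOpen (U i)) (hA' : ∀ i, IsAffineOpen (f ⁻¹ᵁ U i))
    (hs : ∀ i, Function.Surjective (f.app (U i))) : IsClosedImmersion f := by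
  refine IsZariskiLocalAtTarget.of_iSup_eq_top (P := @IsClosedImmersion) U hU fun i => ?_
  have : IsAffine (U i).toScheme := hA i
  have : IsAffine (f ⁻¹ᵁ U i).toScheme := hA' i
  refine IsClosedImmersion.of_surjective_of_isAffine _ ?_
  have h1 : ∀ V : Y.Opens, V = U i → Function.Surjective (f.app V) := by
    rintro _ rfl
    exact hs i
  have h2 := h1 _ (U i).ι_image_top
  have h3 : Function.Bijective (X.presheaf.map
      (eqToHom (image_morphismRestrict_preimage f (U i) ⊤)).op) :=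
    ConcreteCategory.bijective_of_isIso _
  intro y
  obtain ⟨z, hz⟩ := h3.2 y
  obtain ⟨x, hx⟩ := h2 z
  refine ⟨x, ?_⟩
  have h4 := congrArg (fun φ => φ.hom x) (morphismRestrict_appTop f (U i))
  refine h4.trans ?_
  rw [← hz, ← hx]
  rfl

/-! ### The structure map on affine charts -/

theorem appTop_of_ι {X : Scheme.{0}} {B : CommRingCat.{0}} (g : X ⟶ Spec B) (U : X.Opens)
    (ψ : B ⟶ Γ(X, U)) (h : U.ι ≫ g = U.toSpecΓ ≫ Spec.map ψ) :
    g.appLE ⊤ U le_top = (Scheme.ΓSpecIso B).hom ≫ ψ := by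
  have h1 := congrArg (fun φ => Scheme.Hom.appTop φ) h
  beta_reduce at h1
  rw [Scheme.Hom.comp_appTop, Scheme.Hom.comp_appTop, Scheme.Opens.toSpecΓ_appTop] at h1
  have h2 := congrArg (fun φ => φ ≫ U.topIso.hom) h1
  beta_reduce at h2
  rw [Category.assoc, Category.assoc, Category.assoc, Iso.inv_hom_id, Category.comp_id,
    Scheme.ΓSpecIso_naturality] at h2
  have h3 : Scheme.Hom.appTop U.ι ≫ U.topIso.hom = X.presheaf.map (homOfLE le_top).op := by
    simp only [Scheme.Opens.topIso_hom, Scheme.Opens.ι_appTop]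
    exact (X.presheaf.map_comp (homOfLE (le_top : U.ι ''ᵁ ⊤ ≤ ⊤)).op (eqToHom _).op).symm
  have h4 : g.appLE ⊤ U le_top = g.appTop ≫ X.presheaf.map (homOfLE le_top).op := rfl
  rw [h4, ← h2, h3]

section

variable {A S : Type} [CommRing A] [CommRing S] [Algebra A S] (ℬ : ℕ → Submodule A S)
  [GradedAlgebra ℬ]

/-- the structure map of `Proj` to the base ring -/
noncomputable def prStr : Proj ℬ ⟶ Spec (.of A) :=
  Proj.toSpecZero ℬ ≫ Spec.map (CommRingCat.ofHom (algebraMap A (ℬ 0)))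

theorem prStr_appLE {f : S} {m : ℕ} (hf : f ∈ ℬ m) (hm : 0 < m) :
    (prStr ℬ).appLE ⊤ (Proj.basicOpen ℬ f) le_top = (Scheme.ΓSpecIso (.of A)).hom ≫
      (CommRingCat.ofHom ((fromZeroRingHom ℬ (Submonoid.powers f)).comp
        (algebraMap A (ℬ 0))) ≫ Proj.awayToSection ℬ f) := by
  refine appTop_of_ι _ _ _ ?_
  have h1 := Proj.awayι_toSpecZero ℬ f hf hm
  have h2 : (Proj.basicOpen ℬ f).ι ≫ Proj.toSpecZero ℬ =
      Proj.basicOpenToSpec ℬ f ≫ Spec.map (CommRingCat.ofHom (fromZeroRingHom ℬ _)) := by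
    rw [← h1, Proj.awayι, ← Proj.basicOpenIsoSpec_hom ℬ f hf hm, Category.assoc,
      Iso.hom_inv_id_assoc]
  rw [prStr, ← Category.assoc, h2, Proj.basicOpenToSpec, Category.assoc, Category.assoc,
    ← Spec.map_comp, ← Spec.map_comp]
  rfl


/-! ### The irrelevant ideal -/

theorem irrelevant_le_span {ι : Type} (v : ι → S) (hv : ∀ i, v i ∈ ℬ 1)
    (h : Algebra.adjoin (ℬ 0) (Set.range v) = ⊤) :
    (HomogeneousIdeal.irrelevant ℬ).toIdeal ≤ Ideal.span (Set.range v) := by
  classical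
  intro x hx
  have h0 : x - GradedRing.projZeroRingHom ℬ x = x := by
    rw [GradedRing.projZeroRingHom_apply, ← GradedRing.proj_apply,
      (HomogeneousIdeal.mem_irrelevant_iff _ _).mp hx, sub_zero]
  rw [← h0]
  clear hx h0
  have hx : x ∈ Algebra.adjoin (ℬ 0) (Set.range v) := by rw [h]; trivial
  induction hx using Algebra.adjoin_induction with
  | mem x hx =>
    obtain ⟨i, rfl⟩ := hx
    rw [GradedRing.projZeroRingHom_apply, DirectSum.decompose_of_mem_ne ℬ (hv i) (by simp),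
      sub_zero]
    exact Ideal.subset_span ⟨_, rfl⟩
  | algebraMap r =>
    have h1 : algebraMap (ℬ 0) S r - GradedRing.projZeroRingHom ℬ (algebraMap (ℬ 0) S r) = 0 := by
      rw [sub_eq_zero]
      exact (DirectSum.decompose_of_mem_same ℬ r.2).symm
    rw [h1]
    exact zero_mem _
  | add x y hx hy hx' hy' =>
    rw [map_add, add_sub_add_comm]
    exact add_mem hx' hy'
  | mul x y hx hy hx' hy' =>
    have h1 : x * y - GradedRing.projZeroRingHom ℬ (x * y) =
        x * (y - GradedRing.projZeroRingHom ℬ y) +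
          (x - GradedRing.projZeroRingHom ℬ x) * GradedRing.projZeroRingHom ℬ y := by
      rw [map_mul]
      ring
    rw [h1]
    exact add_mem (Ideal.mul_mem_left _ x hy') (Ideal.mul_mem_right _ _ hx')

/-! ### Generators of the polynomial ring -/

theorem adjoin_X_grP (k : Type) [CommRing k] (N : ℕ) :
    Algebra.adjoin (grP k N 0) (Set.range (X : Fin (N + 1) → MvPolynomial (Fin (N + 1)) k)) =
      ⊤ := by
  rw [eq_top_iff]
  intro p _
  induction p using MvPolynomial.induction_on with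
  | C a =>
    exact Subalgebra.algebraMap_mem _ (⟨C a, isHomogeneous_C _ a⟩ : grP k N 0)
  | add p q hp hq => exact add_mem (hp trivial) (hq trivial)
  | mul_X p i hp => exact mul_mem (hp trivial) (Algebra.subset_adjoin ⟨i, rfl⟩)

/-! ### The morphism to projective space -/

variable {k : Type} [CommRing k] [Algebra k A] {N : ℕ} (v : Fin (N + 1) → S)
  (hv : ∀ i, v i ∈ ℬ 1)

/-- the ring map which sends the variables to the elements `v i` -/
noncomputable def evR (k : Type) [CommRing k] [Algebra k A] {N : ℕ} (v : Fin (N + 1) → S) :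
    MvPolynomial (Fin (N + 1)) k →+* S :=
  eval₂Hom ((algebraMap A S).comp (algebraMap k A)) v

theorem evR_X (i : Fin (N + 1)) : evR (A := A) k v (X i) = v i := eval₂Hom_X' _ _ _

theorem evR_C (c : k) : evR (A := A) k v (C c) = algebraMap A S (algebraMap k A c) :=
  eval₂Hom_C _ _ _

include hv in
theorem evR_mem {n : ℕ} {x : MvPolynomial (Fin (N + 1)) k} (hx : x ∈ grP k N n) :
    evR (A := A) k v x ∈ ℬ n := by
  rw [evR, coe_eval₂Hom, eval₂_eq]
  refine sum_mem fun m hm => ?_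
  have h1 : ∑ i ∈ m.support, m i = n := by
    have h2 := (mem_homogeneousSubmodule n x).1 hx (mem_support_iff.1 hm)
    rw [← h2, Finsupp.weight_apply]
    simp [Finsupp.sum]
  have h3 : ((algebraMap A S).comp (algebraMap k A)) (coeff m x) ∈ ℬ 0 :=
    SetLike.algebraMap_mem_graded ℬ _
  have h4 : ∏ i ∈ m.support, v i ^ m i ∈ ℬ (∑ i ∈ m.support, m i • 1) :=
    SetLike.prod_pow_mem_graded _ _ _ _ fun i _ => hv i
  have h5 := SetLike.GradedMul.mul_mem h3 h4
  simp only [smul_eq_mul, mul_one, zero_add] at h5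
  rwa [h1] at h5

/-- the graded ring map -/
noncomputable def evG : grP k N →+*ᵍ ℬ where
  toRingHom := evR (A := A) k v
  map_mem hx := evR_mem ℬ v hv hx

theorem evG_apply (x : MvPolynomial (Fin (N + 1)) k) : evG ℬ v hv x = evR (A := A) k v x := rfl

theorem evG_irr (h : Algebra.adjoin (ℬ 0) (Set.range v) = ⊤) :
    HomogeneousIdeal.irrelevant ℬ ≤
      (HomogeneousIdeal.irrelevant (grP k N)).map (evG ℬ v hv) := by
  change (HomogeneousIdeal.irrelevant ℬ).toIdeal ≤
    (HomogeneousIdeal.irrelevant (grP k N)).toIdeal.map (evG ℬ v hv)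
  refine (irrelevant_le_span ℬ v hv h).trans (Ideal.span_le.2 ?_)
  rintro _ ⟨i, rfl⟩
  rw [← evR_X (A := A) (k := k) v i, ← evG_apply ℬ v hv]
  refine Ideal.mem_map_of_mem _ ?_
  exact HomogeneousIdeal.mem_irrelevant_of_mem _ one_pos (isHomogeneous_X k i)

/-- the morphism to projective space -/
noncomputable def toPN (k : Type) [CommRing k] [Algebra k A]
    (h : Algebra.adjoin (ℬ 0) (Set.range v) = ⊤) : Proj ℬ ⟶ PN k N :=
  Proj.map (evG (k := k) ℬ v hv) (evG_irr ℬ v hv h)

theorem awayι_toPN_comm (h : Algebra.adjoin (ℬ 0) (Set.range v) = ⊤) {n : ℕ} (hn : 0 < n)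
    (s : MvPolynomial (Fin (N + 1)) k) (hs : s ∈ grP k N n) :
    Proj.awayι ℬ (evG ℬ v hv s) ((evG ℬ v hv).2 hs) hn ≫ toPN ℬ v hv k h ≫ PN.str k N =
      Proj.awayι ℬ (evG ℬ v hv s) ((evG ℬ v hv).2 hs) hn ≫
        prStr ℬ ≫ Spec.map (CommRingCat.ofHom (algebraMap k A)) := by
  have key : Proj.awayι ℬ (evG ℬ v hv s) ((evG ℬ v hv).2 hs) hn ≫
      Proj.map (evG (k := k) ℬ v hv) (evG_irr ℬ v hv h) ≫ Proj.toSpecZero (grP k N) ≫
        Spec.map (CommRingCat.ofHom (algebraMap k (grP k N 0))) =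
      Proj.awayι ℬ (evG ℬ v hv s) ((evG ℬ v hv).2 hs) hn ≫
        (Proj.toSpecZero ℬ ≫ Spec.map (CommRingCat.ofHom (algebraMap A (ℬ 0)))) ≫
          Spec.map (CommRingCat.ofHom (algebraMap k A)) := by
    rw [Proj.awayι_comp_map_assoc (evG ℬ v hv) _ hn _ hs,
      Proj.awayι_toSpecZero_assoc, Category.assoc, Proj.awayι_toSpecZero_assoc, ← Spec.map_comp,
      ← Spec.map_comp, ← Spec.map_comp, ← Spec.map_comp]
    congr 1
    refine CommRingCat.hom_ext (RingHom.ext fun c => ?_)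
    change Away.map (evG (k := k) ℬ v hv) s (fromZeroRingHom (grP k N) _ (algebraMap k (grP k N 0) c)) =
      fromZeroRingHom ℬ _ (algebraMap A (ℬ 0) (algebraMap k A c))
    have h1 : fromZeroRingHom (grP k N) (Submonoid.powers s) (algebraMap k (grP k N 0) c) =
        HomogeneousLocalization.mk ⟨0, algebraMap k (grP k N 0) c, 1, one_mem _⟩ := rfl
    have h2 : fromZeroRingHom ℬ (Submonoid.powers (evG (k := k) ℬ v hv s))
        (algebraMap A (ℬ 0) (algebraMap k A c)) =
        HomogeneousLocalization.mk ⟨0, algebraMap A (ℬ 0) (algebraMap k A c), 1, one_mem _⟩ := rfl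
    rw [h1, h2, Away.map, HomogeneousLocalization.map_mk]
    apply HomogeneousLocalization.val_injective
    rw [HomogeneousLocalization.val_mk, HomogeneousLocalization.val_mk]
    congr 1
    · exact evR_C (A := A) v c
    · exact Subtype.ext (map_one (evG (k := k) ℬ v hv))
  exact key

theorem toPN_comm (h : Algebra.adjoin (ℬ 0) (Set.range v) = ⊤) :
    toPN ℬ v hv k h ≫ PN.str k N =
      prStr ℬ ≫ Spec.map (CommRingCat.ofHom (algebraMap k A)) :=
  (Proj.mapAffineOpenCover (evG (k := k) ℬ v hv) (evG_irr ℬ v hv h)).openCover.hom_ext _ _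
    fun s => awayι_toPN_comm ℬ v hv h s.1.2 _ s.2.2

/-- the embedding in `P ^ N x Spec A` -/
noncomputable def toProd (k : Type) [CommRing k] [Algebra k A]
    (h : Algebra.adjoin (ℬ 0) (Set.range v) = ⊤) :
    Proj ℬ ⟶ pullback (PN.str k N) (Spec.map (CommRingCat.ofHom (algebraMap k A))) :=
  pullback.lift (toPN ℬ v hv k h) (prStr ℬ) (toPN_comm ℬ v hv h)

/-- the charts of projective space -/
noncomputable def PNb (k : Type) [CommRing k] {N : ℕ} (j : Fin (N + 1)) : (PN k N).Opens :=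
  Proj.basicOpen (grP k N) (X j)

/-- the charts of `P ^ N x Spec A` -/
noncomputable def Vch (k A : Type) [CommRing k] [CommRing A] [Algebra k A] {N : ℕ}
    (j : Fin (N + 1)) :
    (pullback (PN.str k N) (Spec.map (CommRingCat.ofHom (algebraMap k A)))).Opens :=
  pullback.fst (PN.str k N) (Spec.map (CommRingCat.ofHom (algebraMap k A))) ⁻¹ᵁ PNb k j

theorem iSup_PNb (k : Type) [CommRing k] {N : ℕ} : ⨆ j : Fin (N + 1), PNb k j = ⊤ :=
  Proj.iSup_basicOpen_eq_top' _ _ (fun j => ⟨1, isHomogeneous_X k j⟩) (adjoin_X_grP k N)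

theorem iSup_Vch (k A : Type) [CommRing k] [CommRing A] [Algebra k A] {N : ℕ} :
    ⨆ j : Fin (N + 1), Vch k A j = ⊤ := by
  have h2 := congrArg (fun U => pullback.fst (PN.str k N)
    (Spec.map (CommRingCat.ofHom (algebraMap k A))) ⁻¹ᵁ U) (iSup_PNb k (N := N))
  beta_reduce at h2
  exact (Scheme.Hom.preimage_iSup _ _).symm.trans h2

theorem isAffineOpen_Vch (k A : Type) [CommRing k] [CommRing A] [Algebra k A] {N : ℕ}
    (j : Fin (N + 1)) : IsAffineOpen (Vch k A j) := by
  have h1 : IsAffineOpen (PNb k j) :=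
    Proj.isAffineOpen_basicOpen (grP k N) (X j) (isHomogeneous_X k j) one_pos
  have h2 : IsAffineHom (Spec.map (CommRingCat.ofHom (algebraMap k A))) := inferInstance
  have h3 : IsAffineHom (pullback.fst (PN.str k N)
      (Spec.map (CommRingCat.ofHom (algebraMap k A)))) :=
    isAffineHom_isStableUnderBaseChange.of_isPullback (IsPullback.of_hasPullback _ _).flip h2
  exact h1.preimage _

theorem preimage_Vch (h : Algebra.adjoin (ℬ 0) (Set.range v) = ⊤) (j : Fin (N + 1)) :
    toProd ℬ v hv k h ⁻¹ᵁ Vch k A j = Proj.basicOpen ℬ (evG (k := k) ℬ v hv (X j)) := by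
  unfold Vch
  rw [← Scheme.Hom.comp_preimage, toProd, pullback.lift_fst]
  rfl

/-- the map on sections over the charts is surjective -/
theorem surj_toProd (h : Algebra.adjoin (ℬ 0) (Set.range v) = ⊤)
    (h0 : ∀ r : ℬ 0, ∃ a : A, algebraMap A (ℬ 0) a = r) (j : Fin (N + 1)) :
    Function.Surjective ((toProd ℬ v hv k h).appLE (Vch k A j)
      (Proj.basicOpen ℬ (evG (k := k) ℬ v hv (X j))) (preimage_Vch ℬ v hv h j).ge) := by
  have hf1 : evG (k := k) ℬ v hv (X j) ∈ ℬ 1 := (evG (k := k) ℬ v hv).2 (isHomogeneous_X k j)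
  obtain ⟨R, hR⟩ : ∃ R : Subring Γ(Proj ℬ, Proj.basicOpen ℬ (evG (k := k) ℬ v hv (X j))),
      R = ((toProd ℬ v hv k h).appLE (Vch k A j)
        (Proj.basicOpen ℬ (evG (k := k) ℬ v hv (X j))) (preimage_Vch ℬ v hv h j).ge).hom.range :=
    ⟨_, rfl⟩
  -- the images of the fractions
  have h1 : ∀ y : Away (grP k N) (X j),
      Proj.awayToSection ℬ _ (Away.map (evG (k := k) ℬ v hv) (X j) y) ∈ R := by
    intro y
    have e1 := congrArg (fun φ => φ.hom y)
      (Proj.awayToSection_comp_appLE (evG (k := k) ℬ v hv) (evG_irr ℬ v hv h)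
        (isHomogeneous_X k j))
    beta_reduce at e1
    have e2 : (pullback.fst (PN.str k N) (Spec.map (CommRingCat.ofHom (algebraMap k A)))).appLE
        (PNb k j) (Vch k A j) le_rfl ≫ (toProd ℬ v hv k h).appLE (Vch k A j)
          (Proj.basicOpen ℬ (evG (k := k) ℬ v hv (X j))) (preimage_Vch ℬ v hv h j).ge =
        (toPN ℬ v hv k h).appLE (PNb k j)
          (Proj.basicOpen ℬ (evG (k := k) ℬ v hv (X j))) le_rfl := by
      refine Eq.trans (Scheme.Hom.appLE_comp_appLE _ _ _ _ _ _ _) ?_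
      exact appLE_congr_hom (pullback.lift_fst _ _ _) _ _ _ _
    rw [hR]
    refine ⟨(pullback.fst (PN.str k N) (Spec.map (CommRingCat.ofHom (algebraMap k A)))).appLE
      (PNb k j) (Vch k A j) le_rfl (Proj.awayToSection (grP k N) (X j) y), ?_⟩
    have e3 := congrArg (fun φ => φ.hom (Proj.awayToSection (grP k N) (X j) y)) e2
    exact e3.trans e1
  -- the images of the constants
  have h2 : ∀ a : A, Proj.awayToSection ℬ _ (fromZeroRingHom ℬ
      (Submonoid.powers (evG (k := k) ℬ v hv (X j))) (algebraMap A (ℬ 0) a)) ∈ R := by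
    intro a
    have e1 := congrArg (fun φ => φ.hom ((Scheme.ΓSpecIso (.of A)).inv a))
      (prStr_appLE ℬ hf1 one_pos)
    beta_reduce at e1
    have e2 : (pullback.snd (PN.str k N) (Spec.map (CommRingCat.ofHom (algebraMap k A)))).appLE
        ⊤ (Vch k A j) le_top ≫ (toProd ℬ v hv k h).appLE (Vch k A j)
          (Proj.basicOpen ℬ (evG (k := k) ℬ v hv (X j))) (preimage_Vch ℬ v hv h j).ge =
        (prStr ℬ).appLE ⊤ (Proj.basicOpen ℬ (evG (k := k) ℬ v hv (X j))) le_top := by
      refine Eq.trans (Scheme.Hom.appLE_comp_appLE _ _ _ _ _ _ _) ?_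
      exact appLE_congr_hom (pullback.lift_snd _ _ _) _ _ _ _
    rw [hR]
    refine ⟨(pullback.snd (PN.str k N) (Spec.map (CommRingCat.ofHom (algebraMap k A)))).appLE
      ⊤ (Vch k A j) le_top ((Scheme.ΓSpecIso (.of A)).inv a), ?_⟩
    have e3 := congrArg (fun φ => φ.hom ((Scheme.ΓSpecIso (.of A)).inv a)) e2
    refine (e3.trans e1).trans ?_
    have e4 : (Scheme.ΓSpecIso (.of A)).hom.hom ((Scheme.ΓSpecIso (.of A)).inv a) = a :=
      congrArg (fun φ => φ.hom a) (Scheme.ΓSpecIso (.of A)).inv_hom_id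
    change (Proj.awayToSection ℬ _) (fromZeroRingHom ℬ _ (algebraMap A (ℬ 0)
      ((Scheme.ΓSpecIso (.of A)).hom.hom ((Scheme.ΓSpecIso (.of A)).inv a)))) = _
    rw [e4]
  -- every element is in the range
  have h3 : ∀ x : Away ℬ (evG (k := k) ℬ v hv (X j)), Proj.awayToSection ℬ _ x ∈ R := by
    intro x
    have hx : x ∈ Algebra.adjoin (ℬ 0) { Away.mk ℬ hf1 a (∏ i, v i ^ ai i)
      (hai ▸ SetLike.prod_pow_mem_graded _ _ _ _ fun i _ ↦ hv i) |
        (a : ℕ) (ai : Fin (N + 1) → ℕ) (hai : ∑ i, ai i • 1 = a • 1) (_ : ∀ i, ai i ≤ 1) } := by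
      rw [Away.adjoin_mk_prod_pow_eq_top hf1 (Fin (N + 1)) v h (fun _ => 1) hv]
      trivial
    induction hx using Algebra.adjoin_induction with
    | mem x hx =>
      obtain ⟨a, ai, hai, -, rfl⟩ := hx
      have h5 : ∀ (p : MvPolynomial (Fin (N + 1)) k) (hp : p ∈ grP k N (a • 1)) (q : S)
          (hq : q ∈ ℬ (a • 1)), evR (A := A) k v p = q →
          Away.map (evG (k := k) ℬ v hv) (X j)
            (Away.mk (grP k N) (isHomogeneous_X k j) a p hp) = Away.mk ℬ hf1 a q hq := by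
        rintro p hp q hq rfl
        exact Away.map_mk _ _ _ _ _ _
      have h4 := h1 (Away.mk (grP k N) (isHomogeneous_X k j) a (∏ i, X i ^ ai i)
        (hai ▸ SetLike.prod_pow_mem_graded _ _ _ _ fun i _ ↦ isHomogeneous_X k i))
      rw [h5 _ _ (∏ i, v i ^ ai i)
        (hai ▸ SetLike.prod_pow_mem_graded _ _ _ _ fun i _ ↦ hv i) (by
          rw [map_prod]
          refine Finset.prod_congr rfl fun i _ => ?_
          rw [map_pow, evR_X])] at h4
      exact h4
    | algebraMap r =>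
      obtain ⟨a, rfl⟩ := h0 r
      exact h2 a
    | add x y _ _ hx hy => rw [map_add]; exact add_mem hx hy
    | mul x y _ _ hx hy => rw [map_mul]; exact mul_mem hx hy
  intro y
  obtain ⟨x, rfl⟩ := (ConcreteCategory.bijective_of_isIso
    (Proj.basicOpenIsoAway ℬ _ hf1 one_pos).hom).2 y
  have h4 := h3 x
  rw [hR] at h4
  exact h4

/-- **`Proj` of an algebra generated in degree one is projective.** -/
theorem isProjective_prStr (h : Algebra.adjoin (ℬ 0) (Set.range v) = ⊤)
    (h0 : ∀ r : ℬ 0, ∃ a : A, algebraMap A (ℬ 0) a = r) (hv : ∀ i, v i ∈ ℬ 1) :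
    IsProjective k (prStr ℬ) (Spec.map (CommRingCat.ofHom (algebraMap k A))) := by
  refine ⟨N, toProd ℬ v hv k h, ?_, pullback.lift_snd _ _ _⟩
  refine isClosedImmersion_of_cover _ (fun j => Vch k A j) (iSup_Vch k A)
    (isAffineOpen_Vch k A) (fun j => ?_) fun j => ?_
  · rw [preimage_Vch ℬ v hv h j]
    exact Proj.isAffineOpen_basicOpen ℬ _ ((evG (k := k) ℬ v hv).2 (isHomogeneous_X k j)) one_pos
  · exact surj_of_appLE _ _ _ (preimage_Vch ℬ v hv h j) (surj_toProd ℬ v hv h h0 j)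

end

end Fdim
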