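import Pool.Agent.Work.MP_f714fc_ag.Sch.ProjSec
import Pool.Agent.Work.MP_f714fc_ag.Sch.ProjEmb

/-!
# The charts of `Proj` of a graded ring with six generators `T, z T, p T, z p T, q T, z q T`
-/

open CategoryTheory Limits TopologicalSpace AlgebraicGeometry Opposite
open HomogeneousLocalization

attribute [-instance] CategoryTheory.catToReflQuiver

namespace Fdim

theorem str_eq_appLE {A : CommRingCat.{0}} {X : Scheme.{0}} (π : X ⟶ Spec A) (U : X.Opens) :
    str π U = ((Scheme.ΓSpecIso A).inv ≫ π.appLE ⊤ U le_top).hom := rfl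

section

variable {A R : Type} [CommRing A] [CommRing R] [Algebra A R] (G : ℕ → Submodule A R)
  [GradedAlgebra G]

/-- the section of an element of `R_(f)` -/
noncomputable def sct (f : R) : Away G f →+* Γ(Proj G, Proj.basicOpen G f) :=
  (Proj.awayToSection G f).hom

theorem ovl_congr {f g : R} (hf : f ∈ G 1) (hg : g ∈ G 1) {a : Away G f} {b : Away G g}
    (h : awayMap G hg rfl a = awayMap G hf (mul_comm f g) b) :
    rO (inf_le_left : Proj.basicOpen G f ⊓ Proj.basicOpen G g ≤ Proj.basicOpen G f)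
      (sct G f a) = rO inf_le_right (sct G g b) := by
  have h1 := ovl_left G (f := f) hg a
  have h2 := ovl_right G (g := g) hf b
  rw [h] at h1
  exact h1.trans h2.symm

theorem ovl_one {f g : R} (hf : f ∈ G 1) (hg : g ∈ G 1) {a : Away G f} {b : Away G g}
    (h : awayMap G hg rfl a * awayMap G hf (mul_comm f g) b = 1) :
    rO (inf_le_left : Proj.basicOpen G f ⊓ Proj.basicOpen G g ≤ Proj.basicOpen G f)
      (sct G f a) * rO inf_le_right (sct G g b) = 1 := by
  have h1 := ovl_left G (f := f) hg a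
  have h2 := ovl_right G (g := g) hf b
  have h3 := congrArg (ovl G f g) h
  rw [map_mul, map_one] at h3
  exact (congrArg₂ (· * ·) h1 h2).trans h3

theorem ovl_mul {f g : R} (hf : f ∈ G 1) (hg : g ∈ G 1) {a c : Away G f} {b : Away G g}
    (h : awayMap G hf (mul_comm f g) b * awayMap G hg rfl a = awayMap G hg rfl c) :
    rO inf_le_right (sct G g b) *
      rO (inf_le_left : Proj.basicOpen G f ⊓ Proj.basicOpen G g ≤ Proj.basicOpen G f)
      (sct G f a) = rO inf_le_left (sct G f c) := by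
  have h1 := ovl_left G (f := f) hg a
  have h1' := ovl_left G (f := f) hg c
  have h2 := ovl_right G (g := g) hf b
  have h3 := congrArg (ovl G f g) h
  rw [map_mul] at h3
  exact (congrArg₂ (· * ·) h2 h1).trans (h3.trans h1'.symm)

/-- the structure map on a basic open subset -/
theorem str_prStr {f : R} (hf : f ∈ G 1) (a : A) :
    str (prStr G) (Proj.basicOpen G f) a = sct G f (cstA G f a) := by
  rw [str_eq_appLE, prStr_appLE G hf one_pos, Iso.inv_hom_id_assoc]
  rfl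

/-- the non-vanishing locus of `g / f` -/
theorem basicOpen_sct {f g : R} (hf : f ∈ G 1) (hg : g ∈ G 1) :
    Proj.basicOpen G f ⊓ Proj.basicOpen G g = (Proj G).basicOpen (sct G f (frac G hf hg)) :=
  (basicOpen_secf G hf hg).symm

variable (A) in
/-- six generators in degree one of a graded domain -/
structure YRing (t : A) where
  /-- a field -/
  K : Type
  [fK : Field K]
  /-- the embedding -/
  j : R →+* K
  hj : Function.Injective j
  /-- the generators -/
  g : Fin 6 → R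
  hg : ∀ i, g i ∈ G 1
  /-- the coordinates -/
  z : K
  /-- the coordinates -/
  p : K
  /-- the coordinates -/
  T : K
  hz : z ≠ 0
  hp : p ≠ 0
  hT : T ≠ 0
  hr : z * p + j (algebraMap A R t) ≠ 0
  j0 : j (g 0) = T
  j1 : j (g 1) = z * T
  j2 : j (g 2) = p * T
  j3 : j (g 3) = z * p * T
  j4 : j (g 4) = z * (z * p + j (algebraMap A R t)) * T
  j5 : j (g 5) = z * (z * (z * p + j (algebraMap A R t))) * T

attribute [instance] YRing.fK

end

namespace YRing

variable {A R : Type} [CommRing A] [CommRing R] [Algebra A R] {G : ℕ → Submodule A R}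
  [GradedAlgebra G] {t : A} (D : YRing A G t)

/-- the constant -/
noncomputable def c : D.K := D.j (algebraMap A R t)

omit [GradedAlgebra G] in
theorem hr' : D.z * D.p + D.c ≠ 0 := D.hr

omit [GradedAlgebra G] in
theorem j4' : D.j (D.g 4) = D.z * (D.z * D.p + D.c) * D.T := D.j4

omit [GradedAlgebra G] in
theorem j5' : D.j (D.g 5) = D.z * (D.z * (D.z * D.p + D.c)) * D.T := D.j5

omit [GradedAlgebra G] in
theorem g0 (i : Fin 6) : D.g i ≠ 0 := by
  intro h
  have hz := D.hz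
  have hp := D.hp
  have hT := D.hT
  have hr := D.hr
  have h0 : D.j (D.g i) = 0 := by rw [h, map_zero]
  fin_cases i
  · exact hT (D.j0.symm.trans h0)
  · exact mul_ne_zero hz hT (D.j1.symm.trans h0)
  · exact mul_ne_zero hp hT (D.j2.symm.trans h0)
  · exact mul_ne_zero (mul_ne_zero hz hp) hT (D.j3.symm.trans h0)
  · exact mul_ne_zero (mul_ne_zero hz hr) hT (D.j4.symm.trans h0)
  · exact mul_ne_zero (mul_ne_zero hz (mul_ne_zero hz hr)) hT (D.j5.symm.trans h0)

/-- the fraction `g_j / g_i` -/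
noncomputable def fr (i j : Fin 6) : Away G (D.g i) := frac G (D.hg i) (D.hg j)

/-- the constant in a chart -/
noncomputable def ct (i : Fin 6) : Away G (D.g i) := cstA G (D.g i) t

/-- the value in the field -/
noncomputable def kp (i : Fin 6) : Away G (D.g i) →+* D.K := kap G D.hj (D.g0 i)

theorem kp_fr (i j : Fin 6) : D.kp i (D.fr i j) = D.j (D.g j) / D.j (D.g i) :=
  kap_frac _ _ _ (D.hg i) (D.hg j)

theorem kp_ct (i : Fin 6) : D.kp i (D.ct i) = D.c :=
  kap_cstA _ _ _ _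

theorem kp_inj (i : Fin 6) : Function.Injective (D.kp i) :=
  kap_injective G _ _ (D.hg i)

/-- the chart -/
noncomputable def V (i : Fin 6) : (Proj G).Opens := Proj.basicOpen G (D.g i)

/-- the section of an element of `R_(g_i)` -/
noncomputable def sc (i : Fin 6) : Away G (D.g i) →+* Γ(Proj G, D.V i) := sct G (D.g i)

theorem str_ct (i : Fin 6) : str (prStr G) (D.V i) t = D.sc i (D.ct i) := str_prStr G (D.hg i) t

theorem bO (i j : Fin 6) : D.V i ⊓ D.V j = (Proj G).basicOpen (D.sc i (D.fr i j)) :=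
  basicOpen_sct G (D.hg i) (D.hg j)

/-! ### Identities between fractions -/

theorem I03 : D.fr 0 5 = D.fr 0 1 * (D.fr 0 1 * (D.fr 0 1 * D.fr 0 2 + D.ct 0)) := by
  apply D.kp_inj
  have hT := D.hT
  simp only [map_mul, map_add, kp_fr, kp_ct, j0, j1, j2, j5']
  field_simp

theorem I30 : D.fr 5 0 = D.fr 5 4 * D.fr 5 1 := by
  apply D.kp_inj
  have hT := D.hT
  have hz := D.hz
  have hr := D.hr'
  simp only [map_mul, kp_fr, j0, j1, j4', j5']
  field_simp

theorem I12 : D.fr 2 1 = D.fr 2 3 * D.fr 2 0 := by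
  apply D.kp_inj
  have hT := D.hT
  have hp := D.hp
  simp only [map_mul, kp_fr, j0, j1, j2, j3]
  field_simp

theorem J21 : D.fr 1 0 * (D.fr 1 0 * D.fr 1 5) = D.fr 1 3 + D.ct 1 * D.fr 1 0 := by
  apply D.kp_inj
  have hT := D.hT
  have hz := D.hz
  simp only [map_mul, map_add, kp_fr, kp_ct, j0, j1, j3, j5']
  field_simp

theorem J21' : D.fr 1 2 = D.fr 1 0 * D.fr 1 3 := by
  apply D.kp_inj
  have hT := D.hT
  have hz := D.hz
  simp only [map_mul, kp_fr, j0, j1, j2, j3]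
  field_simp

theorem I13 : D.fr 2 5 = D.fr 2 3 * (D.fr 2 3 * (D.fr 2 3 + D.ct 2 * D.fr 2 0)) := by
  apply D.kp_inj
  have hT := D.hT
  have hp := D.hp
  simp only [map_mul, map_add, kp_fr, kp_ct, j0, j2, j3, j5']
  field_simp

theorem J31 : D.fr 5 4 * D.fr 5 4 = D.fr 5 3 + D.ct 5 * (D.fr 5 4 * D.fr 5 1) := by
  apply D.kp_inj
  have hT := D.hT
  have hz := D.hz
  have hr := D.hr'
  simp only [map_mul, map_add, kp_fr, kp_ct, j1, j3, j4', j5']
  field_simp

theorem J31' : D.fr 5 2 = D.fr 5 4 * D.fr 5 3 := by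
  apply D.kp_inj
  have hT := D.hT
  have hz := D.hz
  have hr := D.hr'
  simp only [map_mul, kp_fr, j2, j3, j4', j5']
  field_simp

/-! ### Identities on overlaps -/

/-- the value in the field of an element of `R_(g_i g_j)` -/
noncomputable def kp2 (i j : Fin 6) : Away G (D.g i * D.g j) →+* D.K :=
  kap G D.hj (by
    intro h
    have h1 := congrArg D.j h
    rw [map_mul, map_zero] at h1
    exact mul_ne_zero (j_ne_zero D.hj (D.g0 i)) (j_ne_zero D.hj (D.g0 j)) h1)

theorem kp2_inj (i j : Fin 6) : Function.Injective (D.kp2 i j) :=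
  kap_injective G _ _ (SetLike.mul_mem_graded (D.hg i) (D.hg j))

theorem kp2_left (i j : Fin 6) (a : Away G (D.g i)) :
    D.kp2 i j (awayMap G (D.hg j) rfl a) = D.kp i a :=
  kap_awayMap G _ _ _ (D.hg i) (D.hg j) _ a

theorem kp2_right (i j : Fin 6) (b : Away G (D.g j)) :
    D.kp2 i j (awayMap G (D.hg i) (mul_comm _ _) b) = D.kp j b :=
  kap_awayMap G _ _ _ (D.hg j) (D.hg i) _ b

/-- equality on overlaps can be checked in the field -/
theorem ovl_eq {i j : Fin 6} {a : Away G (D.g i)} {b : Away G (D.g j)}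
    (h : D.kp i a = D.kp j b) :
    rO (inf_le_left : D.V i ⊓ D.V j ≤ D.V i) (D.sc i a) = rO inf_le_right (D.sc j b) := by
  refine ovl_congr G (D.hg i) (D.hg j) ?_
  apply kp2_inj
  rw [kp2_left, kp2_right, h]

/-- a product equal to one on overlaps can be checked in the field -/
theorem ovl_mul_eq {i j : Fin 6} {a : Away G (D.g i)} {b : Away G (D.g j)}
    (h : D.kp i a * D.kp j b = 1) :
    rO (inf_le_left : D.V i ⊓ D.V j ≤ D.V i) (D.sc i a) * rO inf_le_right (D.sc j b) = 1 := by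
  refine ovl_one G (D.hg i) (D.hg j) ?_
  apply kp2_inj
  rw [map_mul, kp2_left, kp2_right, h, map_one]

/-- a product on overlaps can be checked in the field -/
theorem ovl_mul_eq' {i j : Fin 6} {a c : Away G (D.g i)} {b : Away G (D.g j)}
    (h : D.kp j b * D.kp i a = D.kp i c) :
    rO inf_le_right (D.sc j b) * rO (inf_le_left : D.V i ⊓ D.V j ≤ D.V i) (D.sc i a) =
      rO inf_le_left (D.sc i c) := by
  refine ovl_mul G (D.hg i) (D.hg j) ?_
  apply kp2_inj
  rw [map_mul, kp2_left, kp2_right, kp2_left, h]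

/-! ### The charts -/

theorem bo_idem {X : Scheme.{0}} {U : X.Opens} (a b : Γ(X, U)) :
    X.basicOpen (a * (a * b)) = X.basicOpen (a * b) := by
  rw [Scheme.basicOpen_mul, Scheme.basicOpen_mul, inf_left_idem]

theorem bij_of {i : Fin 6} {a b : Away G (D.g i)}
    (h : Function.Bijective (MvPolynomial.eval₂Hom (cstA G (D.g i)) ![a, b])) :
    Function.Bijective (MvPolynomial.eval₂Hom (str (prStr G) (D.V i))
      ![D.sc i a, D.sc i b]) := by
  have h1 : MvPolynomial.eval₂Hom (str (prStr G) (D.V i)) ![D.sc i a, D.sc i b] =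
      (D.sc i).comp (MvPolynomial.eval₂Hom (cstA G (D.g i)) ![a, b]) := by
    refine MvPolynomial.ringHom_ext (fun r => ?_) (fun k => ?_)
    · rw [MvPolynomial.coe_eval₂Hom, MvPolynomial.eval₂_C, RingHom.comp_apply,
        MvPolynomial.coe_eval₂Hom, MvPolynomial.eval₂_C]
      exact str_prStr G (D.hg i) r
    · rw [MvPolynomial.coe_eval₂Hom, MvPolynomial.eval₂_X, RingHom.comp_apply,
        MvPolynomial.coe_eval₂Hom, MvPolynomial.eval₂_X]
      fin_cases k <;> rfl
  rw [h1]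
  exact (secBij G (D.hg i)).comp h

theorem e03 : D.V 0 ⊓ D.V 5 = (Proj G).basicOpen (D.sc 0 (D.fr 0 1) *
    (D.sc 0 (D.fr 0 1) * D.sc 0 (D.fr 0 2) + str (prStr G) (D.V 0) t)) := by
  rw [D.bO 0 5, D.I03, map_mul, map_mul, map_add, map_mul, bo_idem, str_ct]

theorem e30 : D.V 0 ⊓ D.V 5 =
    (Proj G).basicOpen (D.sc 5 (D.fr 5 4) * D.sc 5 (D.fr 5 1)) := by
  rw [inf_comm, D.bO 5 0, D.I30, map_mul]

theorem e12 : D.V 2 ⊓ D.V 1 =
    (Proj G).basicOpen (D.sc 2 (D.fr 2 3) * D.sc 2 (D.fr 2 0)) := by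
  rw [D.bO 2 1, D.I12, map_mul]

theorem e21 : D.V 2 ⊓ D.V 1 = (Proj G).basicOpen (D.sc 1 (D.fr 1 0) *
    (D.sc 1 (D.fr 1 0) * D.sc 1 (D.fr 1 5) - str (prStr G) (D.V 1) t)) := by
  have h : D.sc 1 (D.fr 1 0) * (D.sc 1 (D.fr 1 0) * D.sc 1 (D.fr 1 5) -
      str (prStr G) (D.V 1) t) = D.sc 1 (D.fr 1 3) := by
    have h1 := congrArg (D.sc 1) D.J21
    rw [map_mul, map_mul, map_add, map_mul, ← str_ct] at h1
    rw [mul_sub, h1]
    ring
  have h2 : D.sc 1 (D.fr 1 2) = D.sc 1 (D.fr 1 0) * (D.sc 1 (D.fr 1 0) *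
      (D.sc 1 (D.fr 1 0) * D.sc 1 (D.fr 1 5) - str (prStr G) (D.V 1) t)) := by
    rw [h, D.J21', map_mul]
  rw [inf_comm, D.bO 1 2, h2, bo_idem]

theorem e13 : D.V 2 ⊓ D.V 5 = (Proj G).basicOpen (D.sc 2 (D.fr 2 3) *
    (D.sc 2 (D.fr 2 3) + str (prStr G) (D.V 2) t * D.sc 2 (D.fr 2 0))) := by
  rw [D.bO 2 5, D.I13, map_mul, map_mul, map_add, map_mul, bo_idem, str_ct]

theorem e31 : D.V 2 ⊓ D.V 5 = (Proj G).basicOpen (D.sc 5 (D.fr 5 4) *
    (D.sc 5 (D.fr 5 4) - str (prStr G) (D.V 5) t * D.sc 5 (D.fr 5 1))) := by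
  have h : D.sc 5 (D.fr 5 4) * (D.sc 5 (D.fr 5 4) -
      str (prStr G) (D.V 5) t * D.sc 5 (D.fr 5 1)) = D.sc 5 (D.fr 5 3) := by
    have h1 := congrArg (D.sc 5) D.J31
    rw [map_mul, map_add, map_mul, map_mul, ← str_ct] at h1
    rw [mul_sub, h1]
    ring
  have h2 : D.sc 5 (D.fr 5 2) = D.sc 5 (D.fr 5 4) * (D.sc 5 (D.fr 5 4) *
      (D.sc 5 (D.fr 5 4) - str (prStr G) (D.V 5) t * D.sc 5 (D.fr 5 1))) := by
    rw [h, D.J31', map_mul]
  rw [inf_comm, D.bO 5 2, h2, bo_idem]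

/-- the expression `z ^ 2 p + t z` -/
noncomputable def q0 : Away G (D.g 0) :=
  D.fr 0 1 ^ 2 * D.fr 0 2 + D.ct 0 * D.fr 0 1

theorem sc_q0 : D.sc 0 D.q0 = D.sc 0 (D.fr 0 1) ^ 2 * D.sc 0 (D.fr 0 2) +
    str (prStr G) (D.V 0) t * D.sc 0 (D.fr 0 1) := by
  rw [q0, map_add, map_mul, map_mul, map_pow, str_ct]

theorem kp_q0 : D.kp 0 D.q0 = D.z * (D.z * D.p + D.c) := by
  have hT := D.hT
  rw [q0]
  simp only [map_mul, map_add, map_pow, kp_fr, kp_ct, j0, j1, j2]
  field_simp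

/-- the expression `z (z + t p')` -/
noncomputable def s2 : Away G (D.g 2) :=
  D.fr 2 3 * (D.fr 2 3 + D.ct 2 * D.fr 2 0)

theorem sc_s2 : D.sc 2 D.s2 = D.sc 2 (D.fr 2 3) *
    (D.sc 2 (D.fr 2 3) + str (prStr G) (D.V 2) t * D.sc 2 (D.fr 2 0)) := by
  rw [s2, map_mul, map_add, map_mul, str_ct]

theorem kp_s2 : D.kp 2 D.s2 = D.z * (D.z * D.p + D.c) / D.p := by
  have hT := D.hT
  have hp := D.hp
  rw [s2]
  simp only [map_mul, map_add, kp_fr, kp_ct, j0, j2, j3]
  field_simp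

theorem r12y' : rO (inf_le_left : D.V 2 ⊓ D.V 1 ≤ D.V 2) (D.sc 2 (D.fr 2 0)) *
    rO inf_le_right (D.sc 1 (D.fr 1 0) ^ 2 * D.sc 1 (D.fr 1 5) -
      str (prStr G) (D.V 1) t * D.sc 1 (D.fr 1 0)) = 1 := by
  have h : D.sc 1 (D.fr 1 0) ^ 2 * D.sc 1 (D.fr 1 5) -
      str (prStr G) (D.V 1) t * D.sc 1 (D.fr 1 0) = D.sc 1 (D.fr 1 3) := by
    have h1 := congrArg (D.sc 1) D.J21
    rw [map_mul, map_mul, map_add, map_mul, ← str_ct] at h1
    rw [pow_two, mul_assoc, h1]
    ring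
  rw [h]
  apply D.ovl_mul_eq
  have hT := D.hT
  have hz := D.hz
  have hp := D.hp
  simp only [kp_fr, j0, j1, j2, j3]
  field_simp

/-- the charts of `Proj` -/
noncomputable def charts (hcov : D.V 0 ⊔ D.V 2 ⊔ D.V 1 ⊔ D.V 5 = ⊤)
    (h0 : Function.Bijective (MvPolynomial.eval₂Hom (cstA G (D.g 0)) ![D.fr 0 1, D.fr 0 2]))
    (h1 : Function.Bijective (MvPolynomial.eval₂Hom (cstA G (D.g 2)) ![D.fr 2 3, D.fr 2 0]))
    (h2 : Function.Bijective (MvPolynomial.eval₂Hom (cstA G (D.g 1)) ![D.fr 1 0, D.fr 1 5]))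
    (h3 : Function.Bijective (MvPolynomial.eval₂Hom (cstA G (D.g 5)) ![D.fr 5 4, D.fr 5 1])) :
    YCharts (.of A) t (prStr G) where
  U i := D.V (![0, 2, 1, 5] i)
  aff i := Proj.isAffineOpen_basicOpen G _ (D.hg _) one_pos
  cover := by
    rw [eq_top_iff, ← hcov]
    refine sup_le (sup_le (sup_le ?_ ?_) ?_) ?_
    · exact le_iSup (fun i : Fin 4 => D.V (![0, 2, 1, 5] i)) 0
    · exact le_iSup (fun i : Fin 4 => D.V (![0, 2, 1, 5] i)) 1
    · exact le_iSup (fun i : Fin 4 => D.V (![0, 2, 1, 5] i)) 2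
    · exact le_iSup (fun i : Fin 4 => D.V (![0, 2, 1, 5] i)) 3
  x i := D.sc _ (D.fr (![0, 2, 1, 5] i) (![1, 3, 0, 4] i))
  y i := D.sc _ (D.fr (![0, 2, 1, 5] i) (![2, 0, 5, 1] i))
  bij i := by
    fin_cases i
    · exact D.bij_of h0
    · exact D.bij_of h1
    · exact D.bij_of h2
    · exact D.bij_of h3
  b01 := D.bO 0 2
  b10 := (inf_comm _ _).trans (D.bO 2 0)
  b23 := D.bO 1 5
  b32 := (inf_comm _ _).trans (D.bO 5 1)
  b02 := D.bO 0 1
  b20 := (inf_comm _ _).trans (D.bO 1 0)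
  b03 := D.e03
  b30 := D.e30
  b12 := D.e12
  b21 := D.e21
  b13 := D.e13
  b31 := D.e31
  r01x := by
    refine D.ovl_eq (i := 0) (j := 2) (a := D.fr 0 1) (b := D.fr 2 3) ?_
    have hT := D.hT
    have hp := D.hp
    simp only [kp_fr, j0, j1, j2, j3]
    field_simp
  r01y := by
    refine D.ovl_mul_eq (i := 0) (j := 2) (a := D.fr 0 2) (b := D.fr 2 0) ?_
    have hT := D.hT
    have hp := D.hp
    simp only [kp_fr, j0, j2]
    field_simp
  r23x := by
    refine D.ovl_eq (i := 1) (j := 5) (a := D.fr 1 0) (b := D.fr 5 4) ?_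
    have hT := D.hT
    have hz := D.hz
    have hr := D.hr'
    simp only [kp_fr, j0, j1, j4', j5']
    field_simp
  r23y := by
    refine D.ovl_mul_eq (i := 1) (j := 5) (a := D.fr 1 5) (b := D.fr 5 1) ?_
    have hT := D.hT
    have hz := D.hz
    have hr := D.hr'
    simp only [kp_fr, j1, j5']
    field_simp
  r02x := by
    refine D.ovl_mul_eq (i := 0) (j := 1) (a := D.fr 0 1) (b := D.fr 1 0) ?_
    have hT := D.hT
    have hz := D.hz
    simp only [kp_fr, j0, j1]
    field_simp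
  r02y := by
    refine Eq.trans ?_ (congrArg _ D.sc_q0)
    refine (D.ovl_eq (i := 0) (j := 1) (a := D.q0) (b := D.fr 1 5) ?_).symm
    have hT := D.hT
    have hz := D.hz
    rw [kp_q0]
    simp only [kp_fr, j1, j5']
    field_simp
  r03x := by
    refine D.ovl_mul_eq (i := 0) (j := 5) (a := D.fr 0 1) (b := D.fr 5 4) ?_
    have hT := D.hT
    have hz := D.hz
    have hr := D.hr'
    simp only [kp_fr, j0, j1, j4', j5']
    field_simp
  r03y := by
    refine Eq.trans (congrArg (fun u => _ * u) (congrArg _ D.sc_q0.symm)) ?_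
    refine (mul_comm _ _).trans
      (D.ovl_mul_eq (i := 0) (j := 5) (a := D.q0) (b := D.fr 5 1) ?_)
    have hT := D.hT
    have hz := D.hz
    have hr := D.hr'
    rw [kp_q0]
    simp only [kp_fr, j1, j5']
    field_simp
  r12x := by
    refine D.ovl_mul_eq (i := 2) (j := 1) (a := D.fr 2 3) (b := D.fr 1 0) ?_
    have hT := D.hT
    have hz := D.hz
    have hp := D.hp
    simp only [kp_fr, j0, j1, j2, j3]
    field_simp
  r12y := D.r12y'
  r13x := by
    refine D.ovl_mul_eq (i := 2) (j := 5) (a := D.fr 2 3) (b := D.fr 5 4) ?_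
    have hT := D.hT
    have hz := D.hz
    have hp := D.hp
    have hr := D.hr'
    simp only [kp_fr, j2, j3, j4', j5']
    field_simp
  r13y := by
    refine Eq.trans (congrArg (fun u => _ * u) (congrArg _ D.sc_s2.symm)) ?_
    refine D.ovl_mul_eq' (i := 2) (j := 5) (a := D.s2) (b := D.fr 5 1) (c := D.fr 2 0) ?_
    have hT := D.hT
    have hz := D.hz
    have hp := D.hp
    have hr := D.hr'
    rw [kp_s2]
    simp only [kp_fr, j0, j1, j2, j5']
    field_simp

end YRing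

end Fdim
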