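import Pool.Agent.Work.MP_f714fc_ag.Sch.RtAway
import Pool.Agent.Work.MP_f714fc_ag.Sch.ChartsOf

/-!
# The charts of `Y(A, t) = Proj` of the graded subring
-/

open CategoryTheory Limits TopologicalSpace AlgebraicGeometry Opposite MvPolynomial
open HomogeneousLocalization

attribute [-instance] CategoryTheory.catToReflQuiver

namespace Fdim

variable {A : Type} [CommRing A] [IsDomain A] (t : A)

/-- the inclusion of the graded ring in the field -/
noncomputable def jj : Rt t →+* FractionRing (MvPolynomial (Fin 3) A) :=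
  (algebraMap (MvPolynomial (Fin 3) A) (FractionRing (MvPolynomial (Fin 3) A))).comp
    (Rt t).val.toRingHom

omit [IsDomain A] in
theorem jj_injective : Function.Injective (jj t) :=
  (IsFractionRing.injective (MvPolynomial (Fin 3) A)
    (FractionRing (MvPolynomial (Fin 3) A))).comp Subtype.val_injective

theorem XK_ne_zero (i : Fin 3) :
    algebraMap (MvPolynomial (Fin 3) A) (FractionRing (MvPolynomial (Fin 3) A)) (X i) ≠ 0 := by
  rw [Ne, IsFractionRing.to_map_eq_zero_iff]
  exact X_ne_zero i

/-- the generators of the graded ring -/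
noncomputable def yRing : YRing A (gr t) t where
  K := FractionRing (MvPolynomial (Fin 3) A)
  j := jj t
  hj := jj_injective t
  g := ge t
  hg := ge_mem t
  z := algebraMap _ _ (X 0)
  p := algebraMap _ _ (X 1)
  T := algebraMap _ _ (X 2)
  hz := XK_ne_zero 0
  hp := XK_ne_zero 1
  hT := XK_ne_zero 2
  hr := by
    have h : algebraMap (MvPolynomial (Fin 3) A) (FractionRing (MvPolynomial (Fin 3) A)) (X 0) *
        algebraMap (MvPolynomial (Fin 3) A) (FractionRing (MvPolynomial (Fin 3) A)) (X 1) +
        jj t (algebraMap A (Rt t) t) =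
        algebraMap (MvPolynomial (Fin 3) A) (FractionRing (MvPolynomial (Fin 3) A))
          (X 0 * X 1 + C t) := by
      rw [map_add, map_mul]
      rfl
    rw [h, Ne, IsFractionRing.to_map_eq_zero_iff]
    intro h1
    have h2 := congrArg (MvPolynomial.eval (![1 - t, 1, 1] : Fin 3 → A)) h1
    simp at h2
  j0 := rfl
  j1 := map_mul (algebraMap (MvPolynomial (Fin 3) A) _) (X 0) (X 2)
  j2 := map_mul (algebraMap (MvPolynomial (Fin 3) A) _) (X 1) (X 2)
  j3 := by
    change algebraMap (MvPolynomial (Fin 3) A) _ (X 0 * X 1 * X 2) = _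
    rw [map_mul, map_mul]
  j4 := by
    change algebraMap (MvPolynomial (Fin 3) A) _ ((X 0 ^ 2 * X 1 + C t * X 0) * X 2) =
      _ * (_ + algebraMap (MvPolynomial (Fin 3) A) _ (C t)) * _
    rw [← map_mul, ← map_add, ← map_mul, ← map_mul]
    congr 1
    ring
  j5 := by
    change algebraMap (MvPolynomial (Fin 3) A) _ (X 0 * (X 0 ^ 2 * X 1 + C t * X 0) * X 2) =
      _ * (_ * (_ + algebraMap (MvPolynomial (Fin 3) A) _ (C t))) * _
    rw [← map_mul, ← map_add, ← map_mul, ← map_mul, ← map_mul]
    congr 1
    ring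

/-- the charts of `Y(A, t)` -/
noncomputable def Yt.charts : YCharts (.of A) t (Yt.π t) :=
  (yRing t).charts (sup_basicOpen_ge t) (bij_chart0 t) (bij_chart1 t) (bij_chart2 t)
    (bij_chart3 t)

end Fdim
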