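import Pool.Agent.Work.MP_f714fc_ag.Sch.RtBasic
import Pool.Agent.Work.MP_f714fc_ag.Sch.ProjEmb

/-!
# The surfaces `Y(A, t)` are projective
-/

open CategoryTheory Limits TopologicalSpace AlgebraicGeometry Opposite MvPolynomial
open HomogeneousLocalization

attribute [-instance] CategoryTheory.catToReflQuiver

namespace Fdim

variable {A : Type} [CommRing A] (t : A)

theorem Yt.isProjective {k : Type} [Field k] [Algebra k A] :
    IsProjective k (Yt.π t) (Spec.map (CommRingCat.ofHom (algebraMap k A))) :=
  isProjective_prStr (gr t) (N := 5) (ge t) (adjoin_ge t)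
    (fun r => (bijective_algebraMap_gr_zero t).2 r) (ge_mem t)

end Fdim
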