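import Mathlib

/-!
# A homogeneous subalgebra of a graded algebra is graded
-/

open MvPolynomial

namespace Fdim

section GrSub

variable {A S : Type*} [CommRing A] [CommRing S] [Algebra A S] (G : ℕ → Submodule A S)
  (R : Subalgebra A S)

/-- the grading of a subalgebra of a graded algebra -/
def grSub (n : ℕ) : Submodule A R := (G n).comap R.val.toLinearMap

theorem mem_grSub {n : ℕ} {r : R} : r ∈ grSub G R n ↔ (r : S) ∈ G n := Iff.rfl

variable [GradedAlgebra G]

theorem grSub_sum_eq_zero (x : DirectSum ℕ fun i => grSub G R i)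
    (hx : DirectSum.coeAddMonoidHom (grSub G R) x = 0) : x = 0 := by
  classical
  set j : (DirectSum ℕ fun i => grSub G R i) →+ DirectSum ℕ fun i => G i :=
    DirectSum.map fun i => (⟨⟨fun r => ⟨(r : R), r.2⟩, rfl⟩, fun _ _ => rfl⟩ : grSub G R i →+ G i)
    with hj
  have h1 : ∀ y, DirectSum.coeAddMonoidHom G (j y) = (DirectSum.coeAddMonoidHom (grSub G R) y : R) := by
    intro y
    induction y using DirectSum.induction_on with
    | zero => simp
    | of i r => simp [hj, DirectSum.map_of]
    | add a b ha hb => simp [ha, hb]
  have h2 : j x = 0 := by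
    have h3 := DirectSum.Decomposition.isInternal G
    apply h3.1
    rw [h1, hx]
    simp
  ext i
  have h4 := congrArg (fun z => ((z i : G i) : S)) h2
  simpa [hj] using h4

theorem grSub_isInternal (h : ∀ r ∈ R, ∀ n, GradedRing.proj G n r ∈ R) :
    DirectSum.IsInternal (grSub G R) := by
  classical
  refine ⟨(injective_iff_map_eq_zero _).2 (grSub_sum_eq_zero G R), fun r => ?_⟩
  refine ⟨∑ i ∈ (DirectSum.decompose G (r : S)).support, DirectSum.of (fun i => grSub G R i) i
    ⟨⟨GradedRing.proj G i r, h r r.2 i⟩, SetLike.coe_mem (DirectSum.decompose G (r : S) i)⟩, ?_⟩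
  rw [map_sum]
  apply Subtype.ext
  conv_rhs => rw [← DirectSum.sum_support_decompose G (r : S)]
  rw [AddSubmonoidClass.coe_finsetSum]
  refine Finset.sum_congr rfl fun i _ => ?_
  rw [DirectSum.coeAddMonoidHom_of]
  rfl

/-- a homogeneous subalgebra is graded -/
@[reducible]
noncomputable def gradedSub (h : ∀ r ∈ R, ∀ n, GradedRing.proj G n r ∈ R) :
    GradedAlgebra (grSub G R) where
  one_mem := by
    rw [mem_grSub]
    exact SetLike.GradedOne.one_mem
  mul_mem i j a b ha hb := by
    rw [mem_grSub] at *
    exact SetLike.GradedMul.mul_mem ha hb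
  toDecomposition := (grSub_isInternal G R h).chooseDecomposition

/-- a subalgebra generated by homogeneous elements is homogeneous -/
theorem proj_mem_adjoin {s : Set S} (hs : ∀ x ∈ s, ∃ n, x ∈ G n) {r : S}
    (hr : r ∈ Algebra.adjoin A s) (n : ℕ) : GradedRing.proj G n r ∈ Algebra.adjoin A s := by
  classical
  have h : ∀ r ∈ Algebra.adjoin A s, ∀ n, ((DirectSum.decompose G r n : G n) : S) ∈
      Algebra.adjoin A s := by
    intro r hr
    induction hr using Algebra.adjoin_induction with
    | mem x hx =>
      intro n
      obtain ⟨m, hm⟩ := hs x hx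
      by_cases hmn : m = n
      · subst hmn
        rw [DirectSum.decompose_of_mem_same G hm]
        exact Algebra.subset_adjoin hx
      · rw [DirectSum.decompose_of_mem_ne G hm hmn]
        exact zero_mem _
    | algebraMap a =>
      intro n
      have h0 : algebraMap A S a ∈ G 0 := SetLike.algebraMap_mem_graded G a
      by_cases hmn : 0 = n
      · subst hmn
        rw [DirectSum.decompose_of_mem_same G h0]
        exact (Algebra.adjoin A s).algebraMap_mem a
      · rw [DirectSum.decompose_of_mem_ne G h0 hmn]
        exact zero_mem _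
    | add x y _ _ hx hy =>
      intro n
      rw [DirectSum.decompose_add, DirectSum.add_apply, Submodule.coe_add]
      exact add_mem (hx n) (hy n)
    | mul x y _ _ hx hy =>
      intro n
      rw [DirectSum.decompose_mul, DirectSum.coe_mul_apply]
      exact sum_mem fun ij _ => mul_mem (hx _) (hy _)
  exact h r hr n

end GrSub

end Fdim
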