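import Pool.Agent.Work.MP_f714fc_ag.Sch.Charts

/-!
# Sections over the basic open subsets of `Proj` given by elements of degree one
-/

open CategoryTheory Limits TopologicalSpace AlgebraicGeometry Opposite
open HomogeneousLocalization

attribute [-instance] CategoryTheory.catToReflQuiver

namespace Fdim

section

variable {A R : Type} [CommRing A] [CommRing R] [Algebra A R] (G : ℕ → Submodule A R)
  [GradedAlgebra G]

/-- the fraction `g / f` of elements of degree one -/
noncomputable def frac {f g : R} (hf : f ∈ G 1) (hg : g ∈ G 1) : Away G f :=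
  Away.mk G hf 1 g (by simpa using hg)

/-- the section `g / f` over `D_+(f)` -/
noncomputable def secf {f g : R} (hf : f ∈ G 1) (hg : g ∈ G 1) :
    Γ(Proj G, Proj.basicOpen G f) :=
  Proj.awayToSection G f (frac G hf hg)

theorem secBij {f : R} (hf : f ∈ G 1) :
    Function.Bijective (Proj.awayToSection G f).hom := by
  have h := (Proj.basicOpenIsoAway G f hf one_pos).commRingCatIsoToRingEquiv.bijective
  exact h

theorem frac_eq_isLocalizationElem {f g : R} (hf : f ∈ G 1) (hg : g ∈ G 1) :
    frac G hf hg = Away.isLocalizationElem hf hg := by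
  apply HomogeneousLocalization.val_injective
  simp [frac, Away.isLocalizationElem, Away.val_mk]

/-- the non-vanishing locus of `g / f` -/
theorem basicOpen_secf {f g : R} (hf : f ∈ G 1) (hg : g ∈ G 1) :
    (Proj G).basicOpen (secf G hf hg) = Proj.basicOpen G f ⊓ Proj.basicOpen G g := by
  set U := Proj.basicOpen G f with hU
  set e := Proj.basicOpenIsoSpec G f hf one_pos with he
  have h1 : Proj.awayι G f hf one_pos ⁻¹ᵁ Proj.basicOpen G g =
      (Spec (.of <| Away G f)).basicOpen ((Scheme.ΓSpecIso (.of <| Away G f)).inv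
        (Away.isLocalizationElem hf hg)) :=
    (Proj.awayι_preimage_basicOpen G hf one_pos hg one_pos).trans
      (basicOpen_eq_of_affine (R := .of (Away G f)) _).symm
  have h2 : e.hom ⁻¹ᵁ (Proj.awayι G f hf one_pos ⁻¹ᵁ Proj.basicOpen G g) =
      U.ι ⁻¹ᵁ Proj.basicOpen G g := by
    rw [← Scheme.Hom.comp_preimage, Proj.awayι, ← he, Iso.hom_inv_id_assoc]
  have h3 : e.hom ⁻¹ᵁ ((Spec (.of <| Away G f)).basicOpen
      ((Scheme.ΓSpecIso (.of <| Away G f)).inv (Away.isLocalizationElem hf hg))) =
      U.toScheme.basicOpen (U.topIso.inv (secf G hf hg)) := by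
    rw [Scheme.preimage_basicOpen]
    congr 1
    have h4 := Proj.basicOpenToSpec_app_top G f
    rw [← Proj.basicOpenIsoSpec_hom G f hf one_pos, ← he] at h4
    have h5 := congrArg (fun φ => φ.hom ((Scheme.ΓSpecIso (.of <| Away G f)).inv
      (Away.isLocalizationElem hf hg))) h4
    refine h5.trans ?_
    have h6 : (Scheme.ΓSpecIso (.of <| Away G f)).hom.hom
        ((Scheme.ΓSpecIso (.of <| Away G f)).inv.hom (Away.isLocalizationElem hf hg)) =
        Away.isLocalizationElem hf hg :=
      congrArg (fun φ => φ.hom (Away.isLocalizationElem hf hg))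
        (Scheme.ΓSpecIso (.of <| Away G f)).inv_hom_id
    change U.topIso.inv.hom ((Proj.awayToSection G f).hom
      ((Scheme.ΓSpecIso (.of <| Away G f)).hom.hom
        ((Scheme.ΓSpecIso (.of <| Away G f)).inv.hom (Away.isLocalizationElem hf hg)))) = _
    rw [h6, secf, frac_eq_isLocalizationElem]
  rw [← Scheme.Opens.ι_image_basicOpen_topIso_inv, ← h3, ← h1, h2,
    Scheme.Hom.image_preimage_eq_opensRange_inf, Scheme.Opens.opensRange_ι]

/-- elements of `R_(fg)` as sections over `D_+(f) ⊓ D_+(g)` -/
noncomputable def ovl (f g : R) :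
    Away G (f * g) →+* Γ(Proj G, Proj.basicOpen G f ⊓ Proj.basicOpen G g) :=
  (rO (Proj.basicOpen_mul G f g).ge).comp (Proj.awayToSection G (f * g)).hom

theorem ovl_left {f g : R} (hg : g ∈ G 1) (a : Away G f) :
    rO (inf_le_left : Proj.basicOpen G f ⊓ Proj.basicOpen G g ≤ Proj.basicOpen G f)
      (Proj.awayToSection G f a) = ovl G f g (awayMap G hg rfl a) := by
  have h := congrArg (fun φ => φ.hom a) (Proj.awayMap_awayToSection G (f := f) hg (x := f * g) rfl)
  change (Proj.awayToSection G (f * g)).hom (awayMap G hg rfl a) =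
    ((Proj G).presheaf.map (homOfLE (Proj.basicOpen_mono _ _ _ ⟨_, rfl⟩)).op).hom
      ((Proj.awayToSection G f).hom a) at h
  change _ = rO _ ((Proj.awayToSection G (f * g)).hom (awayMap G hg rfl a))
  rw [h]
  change _ = rO _ (rO _ _)
  rw [rO_rO]

theorem ovl_right {f g : R} (hf : f ∈ G 1) (b : Away G g) :
    rO (inf_le_right : Proj.basicOpen G f ⊓ Proj.basicOpen G g ≤ Proj.basicOpen G g)
      (Proj.awayToSection G g b) = ovl G f g (awayMap G hf (mul_comm f g) b) := by
  have h := congrArg (fun φ => φ.hom b)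
    (Proj.awayMap_awayToSection G (f := g) hf (x := f * g) (mul_comm f g))
  change (Proj.awayToSection G (f * g)).hom (awayMap G hf (mul_comm f g) b) =
    ((Proj G).presheaf.map (homOfLE (Proj.basicOpen_mono _ _ _ ⟨_, mul_comm f g⟩)).op).hom
      ((Proj.awayToSection G g).hom b) at h
  change _ = rO _ ((Proj.awayToSection G (f * g)).hom (awayMap G hf (mul_comm f g) b))
  rw [h]
  change _ = rO _ (rO _ _)
  rw [rO_rO]

/-! ## Fractions as elements of a field -/

variable {K : Type} [Field K] {j : R →+* K} (hj : Function.Injective j)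

include hj in
theorem j_ne_zero {f : R} (hf0 : f ≠ 0) : j f ≠ 0 := by
  rwa [Ne, map_eq_zero_iff j hj]

/-- the value in the field `K` of an element of `R_(f)` -/
noncomputable def kap {f : R} (hf0 : f ≠ 0) : Away G f →+* K :=
  (IsLocalization.Away.lift f (j_ne_zero hj hf0).isUnit : Localization.Away f →+* K).comp
    (algebraMap (Away G f) (Localization.Away f))

theorem kap_mk {f : R} (hf0 : f ≠ 0) {d : ℕ} (hf : f ∈ G d) (n : ℕ) (a : R) (ha : a ∈ G (n • d)) :
    kap G hj hf0 (Away.mk G hf n a ha) = j a / j f ^ n := by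
  rw [kap, RingHom.comp_apply, HomogeneousLocalization.algebraMap_apply, Away.val_mk,
    eq_div_iff (pow_ne_zero _ (j_ne_zero hj hf0))]
  have h := congrArg (IsLocalization.Away.lift f (j_ne_zero hj hf0).isUnit :
    Localization.Away f →+* K) (IsLocalization.mk'_spec (Localization.Away f) a
      (⟨f ^ n, n, rfl⟩ : Submonoid.powers f))
  rw [map_mul, IsLocalization.Away.lift_eq, IsLocalization.Away.lift_eq, map_pow] at h
  rw [Localization.mk_eq_mk']
  exact h

@[simp] theorem kap_frac {f g : R} (hf0 : f ≠ 0) (hf : f ∈ G 1) (hg : g ∈ G 1) :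
    kap G hj hf0 (frac G hf hg) = j g / j f := by
  rw [frac, kap_mk, pow_one]

theorem kap_injective {f : R} (hf0 : f ≠ 0) {d : ℕ} (hf : f ∈ G d) :
    Function.Injective (kap G hj hf0) := by
  rw [injective_iff_map_eq_zero]
  intro x hx
  obtain ⟨n, a, ha, rfl⟩ := Away.mk_surjective G hf x
  rw [kap_mk, div_eq_zero_iff] at hx
  rcases hx with hx | hx
  · have : a = 0 := (map_eq_zero_iff j hj).1 hx
    subst this
    apply HomogeneousLocalization.val_injective
    rw [Away.val_mk, HomogeneousLocalization.val_zero, Localization.mk_zero]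
  · exact absurd hx (pow_ne_zero _ (j_ne_zero hj hf0))

theorem kap_awayMap {f g x : R} (hf0 : f ≠ 0) (hx0 : x ≠ 0) {d e : ℕ} (hf : f ∈ G d)
    (hg : g ∈ G e) (hx : x = f * g) (a : Away G f) :
    kap G hj hx0 (awayMap G hg hx a) = kap G hj hf0 a := by
  obtain ⟨n, a, ha, rfl⟩ := Away.mk_surjective G hf a
  have hg0 : j g ≠ 0 := by
    apply j_ne_zero hj
    rintro rfl
    exact hx0 (by rw [hx, mul_zero])
  rw [awayMap_mk, kap_mk, kap_mk, hx, map_mul, map_mul, map_pow, mul_pow,
    mul_div_mul_right _ _ (pow_ne_zero _ hg0)]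

/-- constants in `R_(f)` -/
noncomputable def cstA (f : R) : A →+* Away G f :=
  (fromZeroRingHom G _).comp (algebraMap A (G 0))

theorem kap_cstA {f : R} (hf0 : f ≠ 0) (a : A) :
    kap G hj hf0 (cstA G f a) = j (algebraMap A R a) := by
  have h : algebraMap (Away G f) (Localization.Away f) (cstA G f a) =
      algebraMap R (Localization.Away f) (algebraMap A R a) := by
    rw [cstA, RingHom.comp_apply, ← HomogeneousLocalization.algebraMap_eq,
      ← IsScalarTower.algebraMap_apply]
    rfl
  rw [kap, RingHom.comp_apply, h, IsLocalization.Away.lift_eq]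

theorem awayMap_cstA {f g x : R} {e : ℕ} (hg : g ∈ G e) (hx : x = f * g) (a : A) :
    awayMap G hg hx (cstA G f a) = cstA G x a :=
  awayMap_fromZeroRingHom G hg hx _

end

end Fdim
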