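import Pool.Agent.Work.MP_f714fc_ag.Sch.Charts
import Pool.Agent.Work.MP_f714fc_ag.Sch.GrSub

/-!
# The graded ring of the surface `Y(A, t)` and its `Proj`
-/

open CategoryTheory Limits TopologicalSpace AlgebraicGeometry Opposite MvPolynomial

attribute [-instance] CategoryTheory.catToReflQuiver

namespace Fdim

variable {A : Type} [CommRing A] (t : A)

/-- the weights: `z` and `p` have degree `0`, `T` has degree `1` -/
def wt : Fin 3 → ℕ := ![0, 0, 1]

/-- the grading of `A[z, p, T]` by the degree in `T` -/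
noncomputable def grT (A : Type) [CommRing A] : ℕ → Submodule A (MvPolynomial (Fin 3) A) :=
  weightedHomogeneousSubmodule A wt

noncomputable instance (A : Type) [CommRing A] : GradedAlgebra (grT A) :=
  weightedGradedAlgebra A wt

/-- the generators `T, z T, p T, z p T, q T, z q T` with `q = z ^ 2 p + t z` -/
noncomputable def gen : Fin 6 → MvPolynomial (Fin 3) A :=
  ![X 2, X 0 * X 2, X 1 * X 2, X 0 * X 1 * X 2, (X 0 ^ 2 * X 1 + C t * X 0) * X 2,
    X 0 * (X 0 ^ 2 * X 1 + C t * X 0) * X 2]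

theorem gen_mem (i : Fin 6) : gen t i ∈ grT A 1 := by
  have hw : ∀ m : Fin 3, (X m : MvPolynomial (Fin 3) A) ∈ grT A (wt m) := fun m =>
    isWeightedHomogeneous_X A wt m
  have h0 : (X 0 : MvPolynomial (Fin 3) A) ∈ grT A 0 := hw 0
  have h1 : (X 1 : MvPolynomial (Fin 3) A) ∈ grT A 0 := hw 1
  have h2 : (X 2 : MvPolynomial (Fin 3) A) ∈ grT A 1 := hw 2
  have hc : (C t : MvPolynomial (Fin 3) A) ∈ grT A 0 := isWeightedHomogeneous_C wt t
  have m : ∀ {a b : MvPolynomial (Fin 3) A} {i j : ℕ}, a ∈ grT A i → b ∈ grT A j →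
      a * b ∈ grT A (i + j) := fun ha hb => SetLike.GradedMul.mul_mem ha hb
  have hq : (X 0 ^ 2 * X 1 + C t * X 0 : MvPolynomial (Fin 3) A) ∈ grT A 0 := by
    refine add_mem ?_ (m hc h0)
    rw [pow_two]
    exact m (m h0 h0) h1
  fin_cases i
  · exact h2
  · exact m h0 h2
  · exact m h1 h2
  · exact m (m h0 h1) h2
  · exact m hq h2
  · exact m (m h0 hq) h2

/-- the ring of sections of the powers of the very ample bundle `C_∞ + f` -/
noncomputable def Rt : Subalgebra A (MvPolynomial (Fin 3) A) :=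
  Algebra.adjoin A (Set.range (gen t))

/-- its grading -/
noncomputable def gr (n : ℕ) : Submodule A (Rt t) := grSub (grT A) (Rt t) n

noncomputable instance : GradedAlgebra (gr t) :=
  gradedSub (grT A) (Rt t) fun r hr n => proj_mem_adjoin (grT A) (by
    rintro _ ⟨i, rfl⟩
    exact ⟨1, gen_mem t i⟩) hr n

/-- the generators as elements of the graded ring -/
noncomputable def ge (i : Fin 6) : Rt t := ⟨gen t i, Algebra.subset_adjoin ⟨i, rfl⟩⟩

theorem ge_mem (i : Fin 6) : ge t i ∈ gr t 1 := gen_mem t i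

/-- the surface `Y(A, t)` -/
noncomputable def Yt : Scheme.{0} := Proj (gr t)

/-- the structure morphism of `Y(A, t)` -/
noncomputable def Yt.π : Yt t ⟶ Spec (.of A) :=
  Proj.toSpecZero (gr t) ≫ Spec.map (CommRingCat.ofHom (algebraMap A (gr t 0)))

end Fdim
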