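import Pool.Agent.Work.MP_f714fc_ag.Sch.RtBasic

/-!
# The four charts of the surface `Y(A, t)` are affine planes
-/

open CategoryTheory Limits TopologicalSpace AlgebraicGeometry Opposite MvPolynomial
open HomogeneousLocalization

attribute [-instance] CategoryTheory.catToReflQuiver

namespace Fdim

namespace RtAway

variable {A : Type} [CommRing A] (t : A)

/-- the inclusion of the graded ring followed by a map -/
noncomputable def toF {F : Type} [CommRing F] (G : MvPolynomial (Fin 3) A →+* F) : Rt t →+* F :=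
  G.comp (Rt t).val.toRingHom

/-- evaluation of fractions -/
noncomputable def phi {F : Type} [CommRing F] (G : MvPolynomial (Fin 3) A →+* F) (i : Fin 6)
    (hG : IsUnit (G (gen t i))) : Away (gr t) (ge t i) →+* F :=
  (IsLocalization.Away.lift (S := Localization.Away (ge t i)) (ge t i) (g := toF t G) hG).comp
    (algebraMap (Away (gr t) (ge t i)) (Localization.Away (ge t i)))

lemma phi_mk {F : Type} [CommRing F] (G : MvPolynomial (Fin 3) A →+* F) (i : Fin 6)
    (hG : IsUnit (G (gen t i))) (n : ℕ) (x : Rt t) (hx : x ∈ gr t (n • 1)) :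
    phi t G i hG (Away.mk (gr t) (ge_mem t i) n x hx) * G (gen t i) ^ n = G x := by
  rw [phi, RingHom.comp_apply, HomogeneousLocalization.algebraMap_apply, Away.val_mk,
    Localization.mk_eq_mk']
  have h := congrArg (IsLocalization.Away.lift (S := Localization.Away (ge t i)) (ge t i)
    (g := toF t G) hG) (IsLocalization.mk'_spec (Localization.Away (ge t i)) x
      (⟨ge t i ^ n, ⟨n, rfl⟩⟩ : Submonoid.powers (ge t i)))
  rw [map_mul] at h
  have h1 : ∀ y : Rt t, IsLocalization.Away.lift (S := Localization.Away (ge t i)) (ge t i)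
      (g := toF t G) hG (algebraMap _ _ y) = G y := fun y => IsLocalization.Away.lift_eq _ _ _
  rw [h1, h1] at h
  rw [← map_pow]
  exact h

lemma phi_cst {F : Type} [CommRing F] (G : MvPolynomial (Fin 3) A →+* F) (i : Fin 6)
    (hG : IsUnit (G (gen t i))) (a : A) : phi t G i hG (cst t i a) = G (C a) := by
  have h := phi_mk t G i hG 0 (algebraMap A (Rt t) a) (by
    rw [zero_smul]
    exact SetLike.algebraMap_mem_graded (gr t) a)
  rw [pow_zero, mul_one] at h
  have h1 : cst t i a = Away.mk (gr t) (ge_mem t i) 0 (algebraMap A (Rt t) a) (by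
    rw [zero_smul]
    exact SetLike.algebraMap_mem_graded (gr t) a) := by
    apply HomogeneousLocalization.val_injective
    rw [Away.val_mk]
    rfl
  rw [h1, h]
  rfl

lemma phi_fr {F : Type} [CommRing F] (G : MvPolynomial (Fin 3) A →+* F) (i : Fin 6)
    (hG : IsUnit (G (gen t i))) (j : Fin 6) : phi t G i hG (fr t i j) * G (gen t i) =
      G (gen t j) := by
  have h := phi_mk t G i hG 1 (ge t j) (by simpa using ge_mem t j)
  rw [pow_one] at h
  exact h

variable [IsDomain A]

lemma gen_ne (i : Fin 6) : gen t i ≠ 0 := by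
  have hX : ∀ j : Fin 3, (X j : MvPolynomial (Fin 3) A) ≠ 0 := fun j => X_ne_zero j
  have hq : (X 0 ^ 2 * X 1 + C t * X 0 : MvPolynomial (Fin 3) A) ≠ 0 := by
    intro h
    have h1 := congrArg (aeval ![(1 : Polynomial A), Polynomial.X, 0]) h
    simp at h1
    have h2 := congrArg (Polynomial.coeff · 1) h1
    simp at h2
  fin_cases i
  · exact hX 2
  · exact mul_ne_zero (hX 0) (hX 2)
  · exact mul_ne_zero (hX 1) (hX 2)
  · exact mul_ne_zero (mul_ne_zero (hX 0) (hX 1)) (hX 2)
  · exact mul_ne_zero hq (hX 2)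
  · exact mul_ne_zero (mul_ne_zero (hX 0) hq) (hX 2)

/-- the fraction field of `A[z, p, T]` -/
abbrev KK (A : Type) [CommRing A] := FractionRing (MvPolynomial (Fin 3) A)

omit [IsDomain A] in
lemma toK_inj : Function.Injective (algebraMap (MvPolynomial (Fin 3) A) (KK A)) :=
  IsFractionRing.injective _ _

lemma gen_unit (i : Fin 6) : IsUnit (algebraMap (MvPolynomial (Fin 3) A) (KK A) (gen t i)) := by
  rw [isUnit_iff_ne_zero]
  intro h
  exact gen_ne t i ((map_eq_zero_iff _ toK_inj).1 h)

/-- the ring of a chart as fractions of polynomials -/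
noncomputable def toK (i : Fin 6) : Away (gr t) (ge t i) →+* KK A :=
  phi t (algebraMap _ (KK A)) i (gen_unit t i)

lemma toK_injective (i : Fin 6) : Function.Injective (toK t i) := by
  intro a b h
  obtain ⟨n, x, hx, rfl⟩ := Away.mk_surjective (gr t) (ge_mem t i) a
  obtain ⟨m, y, hy, rfl⟩ := Away.mk_surjective (gr t) (ge_mem t i) b
  have h1 := phi_mk t (algebraMap _ (KK A)) i (gen_unit t i) n x hx
  have h2 := phi_mk t (algebraMap _ (KK A)) i (gen_unit t i) m y hy
  change toK t i _ * _ = _ at h1 h2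
  have h3 : algebraMap (MvPolynomial (Fin 3) A) (KK A) ((x : MvPolynomial (Fin 3) A)
      * gen t i ^ m) = algebraMap _ (KK A) ((y : MvPolynomial (Fin 3) A) * gen t i ^ n) := by
    rw [map_mul, map_mul, map_pow, map_pow, ← h1, ← h2, h]
    ring
  have h4 : x * ge t i ^ m = y * ge t i ^ n := Subtype.ext (toK_inj h3)
  apply HomogeneousLocalization.val_injective
  rw [Away.val_mk, Away.val_mk, Localization.mk_eq_mk_iff, Localization.r_iff_exists]
  exact ⟨1, by simpa [mul_comm] using h4⟩


lemma toK_fr (i j : Fin 6) : toK t i (fr t i j) =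
    algebraMap (MvPolynomial (Fin 3) A) (KK A) (gen t j) / algebraMap _ (KK A) (gen t i) := by
  rw [eq_div_iff (gen_unit t i).ne_zero]
  exact phi_fr t _ i (gen_unit t i) j

lemma toK_cst (i : Fin 6) (a : A) : toK t i (cst t i a) =
    algebraMap (MvPolynomial (Fin 3) A) (KK A) (C a) :=
  phi_cst t _ i (gen_unit t i) a

/-- a subring of the ring of a chart which contains the constants and all fractions is everything -/
lemma eq_top_of (i : Fin 6) (R : Subring (Away (gr t) (ge t i))) (h0 : ∀ a, cst t i a ∈ R)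
    (h : ∀ j, fr t i j ∈ R) (b : Away (gr t) (ge t i)) : b ∈ R := by
  have h1 := Away.span_mk_prod_pow_eq_top (ge_mem t i) (ge t) (adjoin_ge t) (fun _ => 1) (ge_mem t)
  have h2 : b ∈ (⊤ : Submodule (gr t 0) (Away (gr t) (ge t i))) := Submodule.mem_top
  rw [← h1] at h2
  induction h2 using Submodule.span_induction with
  | mem x hx =>
    obtain ⟨n, ai, hai, rfl⟩ := hx
    have h3 : Away.mk (gr t) (ge_mem t i) n (∏ j, ge t j ^ ai j)
        (hai ▸ SetLike.prod_pow_mem_graded _ _ _ _ fun j _ ↦ ge_mem t j) =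
        ∏ j, fr t i j ^ ai j := by
      apply toK_injective t i
      have h4 := phi_mk t (algebraMap _ (KK A)) i (gen_unit t i) n (∏ j, ge t j ^ ai j)
        (hai ▸ SetLike.prod_pow_mem_graded _ _ _ _ fun j _ ↦ ge_mem t j)
      have hne : algebraMap (MvPolynomial (Fin 3) A) (KK A) (gen t i) ^ n ≠ 0 :=
        pow_ne_zero _ (gen_unit t i).ne_zero
      apply mul_right_cancel₀ hne
      refine h4.trans ?_
      rw [map_prod]
      have h5 : ∑ j, ai j = n := by simpa using hai
      rw [← h5, ← Finset.prod_pow_eq_pow_sum, ← Finset.prod_mul_distrib]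
      have h6 : ((∏ j, ge t j ^ ai j : Rt t) : MvPolynomial (Fin 3) A) = ∏ j, gen t j ^ ai j := by
        rw [← Subalgebra.coe_val, map_prod]
        rfl
      rw [h6, map_prod]
      refine Finset.prod_congr rfl fun j _ => ?_
      have h7 : toK t i (fr t i j ^ ai j) = toK t i (fr t i j) ^ ai j := map_pow (toK t i) _ _
      rw [h7, map_pow, toK_fr, div_pow, div_mul_cancel₀]
      exact pow_ne_zero _ (gen_unit t i).ne_zero
    rw [h3]
    exact Subring.prod_mem _ fun j _ => Subring.pow_mem _ (h j) _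
  | zero => exact Subring.zero_mem _
  | add x y _ _ hx hy => exact Subring.add_mem _ hx hy
  | smul a x _ hx =>
    obtain ⟨a, rfl⟩ := (bijective_algebraMap_gr_zero t).2 a
    rw [Algebra.smul_def]
    exact Subring.mul_mem _ (h0 a) hx

/-- the fraction field of `A[a, b]` -/
abbrev LL (A : Type) [CommRing A] := FractionRing (MvPolynomial (Fin 2) A)

omit [IsDomain A] in
lemma chart_inj (i j₁ j₂ : Fin 6) (G : MvPolynomial (Fin 3) A →+* LL A)
    (hG : G (gen t i) = 1) (hC : ∀ a, G (C a) = algebraMap (MvPolynomial (Fin 2) A) (LL A) (C a))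
    (h1 : G (gen t j₁) = algebraMap (MvPolynomial (Fin 2) A) (LL A) (X 0))
    (h2 : G (gen t j₂) = algebraMap (MvPolynomial (Fin 2) A) (LL A) (X 1)) :
    Function.Injective (eval₂Hom (cst t i) ![fr t i j₁, fr t i j₂]) := by
  have hu : IsUnit (G (gen t i)) := by rw [hG]; exact isUnit_one
  have h3 : (phi t G i hu).comp (eval₂Hom (cst t i) ![fr t i j₁, fr t i j₂]) =
      algebraMap (MvPolynomial (Fin 2) A) (LL A) := by
    apply MvPolynomial.ringHom_ext
    · intro a
      rw [RingHom.comp_apply, coe_eval₂Hom, eval₂_C, phi_cst, hC]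
    · intro m
      rw [RingHom.comp_apply, coe_eval₂Hom, eval₂_X]
      have h4 := phi_fr t G i hu j₁
      have h5 := phi_fr t G i hu j₂
      rw [hG, mul_one] at h4 h5
      fin_cases m
      · exact h4.trans h1
      · exact h5.trans h2
  have h4 : Function.Injective (algebraMap (MvPolynomial (Fin 2) A) (LL A)) :=
    IsFractionRing.injective _ _
  rw [← h3, RingHom.coe_comp] at h4
  exact h4.of_comp


section charts

lemma chart_surj (i j₁ j₂ : Fin 6) (P : Fin 6 → MvPolynomial (Fin 2) A)
    (hP : ∀ j, eval₂Hom ((algebraMap (MvPolynomial (Fin 3) A) (KK A)).comp C)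
      ![algebraMap (MvPolynomial (Fin 3) A) (KK A) (gen t j₁) / algebraMap _ (KK A) (gen t i),
        algebraMap (MvPolynomial (Fin 3) A) (KK A) (gen t j₂) / algebraMap _ (KK A) (gen t i)]
      (P j) = algebraMap (MvPolynomial (Fin 3) A) (KK A) (gen t j) / algebraMap _ (KK A) (gen t i)) :
    Function.Surjective (eval₂Hom (cst t i) ![fr t i j₁, fr t i j₂]) := by
  have h3 : (toK t i).comp (eval₂Hom (cst t i) ![fr t i j₁, fr t i j₂]) =
      eval₂Hom ((algebraMap (MvPolynomial (Fin 3) A) (KK A)).comp C)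
      ![algebraMap (MvPolynomial (Fin 3) A) (KK A) (gen t j₁) / algebraMap _ (KK A) (gen t i),
        algebraMap (MvPolynomial (Fin 3) A) (KK A) (gen t j₂) / algebraMap _ (KK A) (gen t i)] := by
    apply MvPolynomial.ringHom_ext
    · intro a
      rw [RingHom.comp_apply, coe_eval₂Hom, eval₂_C, toK_cst, coe_eval₂Hom, eval₂_C]
      rfl
    · intro m
      rw [RingHom.comp_apply, coe_eval₂Hom, eval₂_X, coe_eval₂Hom, eval₂_X]
      fin_cases m
      · exact toK_fr t i j₁
      · exact toK_fr t i j₂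
  intro b
  have h := eq_top_of t i (eval₂Hom (cst t i) ![fr t i j₁, fr t i j₂]).range
    (fun a => ⟨C a, by rw [coe_eval₂Hom, eval₂_C]⟩) (fun j => ⟨P j, by
      apply toK_injective t i
      rw [toK_fr, ← hP j, ← h3]
      rfl⟩) b
  exact h


lemma X_ne3 (j : Fin 3) : algebraMap (MvPolynomial (Fin 3) A) (KK A) (X j) ≠ 0 := by
  rw [map_ne_zero_iff _ toK_inj]; exact X_ne_zero _

lemma X_ne2 (j : Fin 2) : algebraMap (MvPolynomial (Fin 2) A) (LL A) (X j) ≠ 0 := by
  rw [map_ne_zero_iff _ (IsFractionRing.injective _ _)]; exact X_ne_zero _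

lemma q_ne : algebraMap (MvPolynomial (Fin 3) A) (KK A) (X 0) ^ 2 *
    algebraMap (MvPolynomial (Fin 3) A) (KK A) (X 1) + algebraMap (MvPolynomial (Fin 3) A) (KK A)
      (C t) * algebraMap (MvPolynomial (Fin 3) A) (KK A) (X 0) ≠ 0 := by
  have h := (gen_unit t 4).ne_zero
  intro h1
  apply h
  have h2 : gen t 4 = (X 0 ^ 2 * X 1 + C t * X 0) * X 2 := rfl
  rw [h2, map_mul, map_add, map_mul, map_mul, map_pow, h1, zero_mul]

end charts

end RtAway

open RtAway

section

variable {A : Type} [CommRing A] [IsDomain A] (t : A)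

theorem bij_chart0 : Function.Bijective (eval₂Hom (cst t 0) ![fr t 0 1, fr t 0 2]) := by
  constructor
  · refine chart_inj t 0 1 2 (eval₂Hom ((algebraMap (MvPolynomial (Fin 2) A) (LL A)).comp C)
      ![algebraMap (MvPolynomial (Fin 2) A) (LL A) (X 0),
        algebraMap (MvPolynomial (Fin 2) A) (LL A) (X 1), 1]) ?_ ?_ ?_ ?_
    · simp [gen]
    · intro a; simp
    · simp [gen]
    · simp [gen]
  · refine chart_surj t 0 1 2 ![1, X 0, X 1, X 0 * X 1, X 0 ^ 2 * X 1 + C t * X 0,
      X 0 * (X 0 ^ 2 * X 1 + C t * X 0)] ?_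
    intro j
    fin_cases j
    all_goals simp [gen]

theorem bij_chart1 : Function.Bijective (eval₂Hom (cst t 2) ![fr t 2 3, fr t 2 0]) := by
  constructor
  · have h0 := X_ne2 (A := A) 0
    have h1 := X_ne2 (A := A) 1
    refine chart_inj t 2 3 0 (eval₂Hom ((algebraMap (MvPolynomial (Fin 2) A) (LL A)).comp C)
      ![algebraMap (MvPolynomial (Fin 2) A) (LL A) (X 0),
        (algebraMap (MvPolynomial (Fin 2) A) (LL A) (X 1))⁻¹,
        algebraMap (MvPolynomial (Fin 2) A) (LL A) (X 1)]) ?_ ?_ ?_ ?_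
    · simp [gen, h1]
    · intro a; simp
    · simp [gen, h1]
    · simp [gen]
  · refine chart_surj t 2 3 0 ![X 1, X 0 * X 1, 1, X 0, X 0 ^ 2 + C t * X 0 * X 1,
      X 0 * (X 0 ^ 2 + C t * X 0 * X 1)] ?_
    intro j
    have h0 := X_ne3 (A := A) 0
    have h1 := X_ne3 (A := A) 1
    have h2 := X_ne3 (A := A) 2
    fin_cases j
    all_goals simp [gen]
    all_goals field_simp

theorem bij_chart2 : Function.Bijective (eval₂Hom (cst t 1) ![fr t 1 0, fr t 1 5]) := by
  constructor
  · have h0 := X_ne2 (A := A) 0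
    have h1 := X_ne2 (A := A) 1
    refine chart_inj t 1 0 5 (eval₂Hom ((algebraMap (MvPolynomial (Fin 2) A) (LL A)).comp C)
      ![(algebraMap (MvPolynomial (Fin 2) A) (LL A) (X 0))⁻¹,
        algebraMap (MvPolynomial (Fin 2) A) (LL A) (X 0 ^ 2 * X 1 - C t * X 0),
        algebraMap (MvPolynomial (Fin 2) A) (LL A) (X 0)]) ?_ ?_ ?_ ?_
    · simp [gen, h0]
    · intro a; simp
    · simp [gen]
    · simp [gen]
      field_simp
      ring
  · refine chart_surj t 1 0 5 ![X 0, 1, X 0 * (X 0 ^ 2 * X 1 - C t * X 0),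
      X 0 ^ 2 * X 1 - C t * X 0, X 0 * X 1, X 1] ?_
    intro j
    have h0 := X_ne3 (A := A) 0
    have h1 := X_ne3 (A := A) 1
    have h2 := X_ne3 (A := A) 2
    fin_cases j
    all_goals simp [gen]
    all_goals try field_simp
    all_goals ring

theorem bij_chart3 : Function.Bijective (eval₂Hom (cst t 5) ![fr t 5 4, fr t 5 1]) := by
  constructor
  · have h0 := X_ne2 (A := A) 0
    have h1 := X_ne2 (A := A) 1
    refine chart_inj t 5 4 1 (eval₂Hom ((algebraMap (MvPolynomial (Fin 2) A) (LL A)).comp C)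
      ![(algebraMap (MvPolynomial (Fin 2) A) (LL A) (X 0))⁻¹,
        algebraMap (MvPolynomial (Fin 2) A) (LL A) (X 0) ^ 2 *
          (algebraMap (MvPolynomial (Fin 2) A) (LL A) (X 1))⁻¹ -
          algebraMap (MvPolynomial (Fin 2) A) (LL A) (C t * X 0),
        algebraMap (MvPolynomial (Fin 2) A) (LL A) (X 0 * X 1)]) ?_ ?_ ?_ ?_
    · simp [gen]
      field_simp
      ring
    · intro a; simp
    · simp [gen]
      field_simp
      ring
    · simp [gen, h0]
  · refine chart_surj t 5 4 1 ![X 0 * X 1, X 1, X 0 * (X 0 ^ 2 - C t * X 0 * X 1),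
      X 0 ^ 2 - C t * X 0 * X 1, X 0, 1] ?_
    intro j
    have h0 := X_ne3 (A := A) 0
    have h1 := X_ne3 (A := A) 1
    have h2 := X_ne3 (A := A) 2
    have hq := q_ne t
    have hq' : algebraMap (MvPolynomial (Fin 3) A) (KK A) (X 0) *
        algebraMap (MvPolynomial (Fin 3) A) (KK A) (X 1) +
        algebraMap (MvPolynomial (Fin 3) A) (KK A) (C t) ≠ 0 := by
      intro h
      apply hq
      linear_combination algebraMap (MvPolynomial (Fin 3) A) (KK A) (X 0) * h
    fin_cases j
    · simp [gen]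
      field_simp
    · simp [gen]
    · simp [gen]
      field_simp
      ring
    · simp [gen]
      field_simp
      ring
    · simp [gen]
    · simp [gen]
      field_simp

end

end Fdim
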