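import Pool.Agent.Work.MP_f714fc_ag.Sch.Ring

/-!
# The graded ring of `Y(A, t)`: degree zero, generators, the four charts cover
-/

open CategoryTheory Limits TopologicalSpace AlgebraicGeometry Opposite MvPolynomial
open HomogeneousLocalization

attribute [-instance] CategoryTheory.catToReflQuiver

namespace Fdim

variable {A : Type} [CommRing A] (t : A)

/-! ## Setting `T = 0` -/

/-- `T ↦ 0` -/
noncomputable def killT (A : Type) [CommRing A] :
    MvPolynomial (Fin 3) A →ₐ[A] MvPolynomial (Fin 3) A :=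
  aeval ![X 0, X 1, 0]

theorem killT_gen (i : Fin 6) : killT A (gen t i) = 0 := by
  fin_cases i <;> simp [killT, gen]

theorem killT_mem {r : MvPolynomial (Fin 3) A} (hr : r ∈ Rt t) : ∃ a : A, killT A r = C a := by
  have h : Rt t ≤ (⊥ : Subalgebra A (MvPolynomial (Fin 3) A)).comap (killT A) := by
    refine Algebra.adjoin_le ?_
    rintro _ ⟨i, rfl⟩
    show killT A (gen t i) ∈ (⊥ : Subalgebra A (MvPolynomial (Fin 3) A))
    rw [killT_gen]
    exact zero_mem _
  obtain ⟨a, ha⟩ := Algebra.mem_bot.1 (h hr)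
  exact ⟨a, ha.symm⟩

theorem killT_of_mem_zero {r : MvPolynomial (Fin 3) A} (hr : r ∈ grT A 0) : killT A r = r := by
  have h2 : (2 : Fin 3) ∉ r.vars := by
    intro h
    obtain ⟨d, hd, hd2⟩ := (mem_vars_iff_mem_support _).1 h
    have h0 : Finsupp.weight wt d = 0 := hr (mem_support_iff.1 hd)
    rw [Finsupp.weight_apply, Finsupp.sum, Finset.sum_eq_zero_iff] at h0
    have := h0 2 hd2
    simp [wt] at this
    exact (Finsupp.mem_support_iff.1 hd2) this
  have := hom_congr_vars (f₁ := (killT A).toRingHom) (f₂ := RingHom.id _) (p₁ := r) (p₂ := r)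
    (by ext a; simp [killT]) (by
      intro i hi _
      fin_cases i
      · simp [killT]
      · simp [killT]
      · exact absurd hi h2) rfl
  simpa using this

/-! ## Degree zero -/

theorem mem_gr_zero {r : Rt t} : r ∈ gr t 0 ↔ ∃ a : A, algebraMap A (Rt t) a = r := by
  constructor
  · intro hr
    obtain ⟨a, ha⟩ := killT_mem t r.2
    refine ⟨a, Subtype.ext ?_⟩
    rw [killT_of_mem_zero (show (r : MvPolynomial (Fin 3) A) ∈ grT A 0 from hr)] at ha
    exact ha.symm
  · rintro ⟨a, rfl⟩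
    exact SetLike.algebraMap_mem_graded (gr t) a

theorem bijective_algebraMap_gr_zero : Function.Bijective (algebraMap A (gr t 0)) := by
  constructor
  · intro a b h
    have h1 : algebraMap A (Rt t) a = algebraMap A (Rt t) b := congrArg Subtype.val h
    have h2 : (C a : MvPolynomial (Fin 3) A) = C b := congrArg Subtype.val h1
    exact C_injective _ _ h2
  · intro r
    obtain ⟨a, ha⟩ := (mem_gr_zero t).1 r.2
    exact ⟨a, Subtype.ext ha⟩

/-! ## Generators -/

instance isScalarTower_Rt : IsScalarTower A (gr t 0) (Rt t) :=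
  IsScalarTower.of_algebraMap_eq (R := A) (S := gr t 0) (A := Rt t) fun _ => rfl

instance finiteType_Rt_base : Algebra.FiniteType A (Rt t) := by
  rw [← Subalgebra.fg_iff_finiteType]
  exact Subalgebra.fg_def.2 ⟨_, Set.finite_range _, rfl⟩

instance finiteType_Rt : Algebra.FiniteType (gr t 0) (Rt t) :=
  Algebra.FiniteType.of_restrictScalars_finiteType A (gr t 0) (Rt t)

theorem adjoin_ge_base : Algebra.adjoin A (Set.range (ge t)) = ⊤ := by
  have h : Set.range (ge t) = ((↑) : Rt t → MvPolynomial (Fin 3) A) ⁻¹' (Set.range (gen t)) := by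
    ext r
    constructor
    · rintro ⟨i, rfl⟩
      exact ⟨i, rfl⟩
    · rintro ⟨i, hi⟩
      exact ⟨i, Subtype.ext hi⟩
  rw [h]
  exact Algebra.adjoin_adjoin_coe_preimage

theorem adjoin_ge : Algebra.adjoin (gr t 0) (Set.range (ge t)) = ⊤ := by
  rw [eq_top_iff]
  intro r _
  have hr : r ∈ Algebra.adjoin A (Set.range (ge t)) := by
    rw [adjoin_ge_base]
    trivial
  exact Algebra.adjoin_le (S := (Algebra.adjoin (gr t 0) (Set.range (ge t))).restrictScalars A)
    Algebra.subset_adjoin hr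

/-! ## The four charts cover -/

theorem ge3_sq : ge t 3 ^ 2 = ge t 2 * (ge t 4 - algebraMap A (Rt t) t * ge t 1) := by
  apply Subtype.ext
  show (X 0 * X 1 * X 2 : MvPolynomial (Fin 3) A) ^ 2 =
    X 1 * X 2 * ((X 0 ^ 2 * X 1 + C t * X 0) * X 2 - C t * (X 0 * X 2))
  ring

theorem ge4_sq : ge t 4 ^ 2 = ge t 5 * (ge t 3 + algebraMap A (Rt t) t * ge t 0) := by
  apply Subtype.ext
  show ((X 0 ^ 2 * X 1 + C t * X 0) * X 2 : MvPolynomial (Fin 3) A) ^ 2 =
    X 0 * (X 0 ^ 2 * X 1 + C t * X 0) * X 2 * (X 0 * X 1 * X 2 + C t * X 2)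
  ring

theorem basicOpen_ge3 : Proj.basicOpen (gr t) (ge t 3) ≤ Proj.basicOpen (gr t) (ge t 2) := by
  rw [← Proj.basicOpen_pow (gr t) (ge t 3) 2 (by norm_num), ge3_sq, Proj.basicOpen_mul]
  exact inf_le_left

theorem basicOpen_ge4 : Proj.basicOpen (gr t) (ge t 4) ≤ Proj.basicOpen (gr t) (ge t 5) := by
  rw [← Proj.basicOpen_pow (gr t) (ge t 4) 2 (by norm_num), ge4_sq, Proj.basicOpen_mul]
  exact inf_le_left

/-- uses `(z p T)^2 = (q T) (p T) - t (z T) (p T)` and `(q T)^2 = (z q T) (z p T) + t (z q T) T` -/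
theorem sup_basicOpen_ge :
    Proj.basicOpen (gr t) (ge t 0) ⊔ Proj.basicOpen (gr t) (ge t 2) ⊔
      Proj.basicOpen (gr t) (ge t 1) ⊔ Proj.basicOpen (gr t) (ge t 5) = ⊤ := by
  rw [eq_top_iff, ← Proj.iSup_basicOpen_eq_top' (gr t) (ge t) (fun i => ⟨1, ge_mem t i⟩)
    (adjoin_ge t)]
  refine iSup_le fun i => ?_
  fin_cases i
  · exact le_sup_left.trans (le_sup_left.trans le_sup_left)
  · exact le_sup_right.trans le_sup_left
  · exact le_sup_right.trans (le_sup_left.trans le_sup_left)
  · exact (basicOpen_ge3 t).trans (le_sup_right.trans (le_sup_left.trans le_sup_left))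
  · exact (basicOpen_ge4 t).trans le_sup_right
  · exact le_sup_right

/-! ## Fractions and constants in the charts -/

/-- the fraction `g_j / g_i` -/
noncomputable def fr (i j : Fin 6) : Away (gr t) (ge t i) :=
  Away.mk (gr t) (ge_mem t i) 1 (ge t j) (by simpa using ge_mem t j)

/-- constants in the ring of a chart -/
noncomputable def cst (i : Fin 6) : A →+* Away (gr t) (ge t i) :=
  (fromZeroRingHom (gr t) _).comp (algebraMap A (gr t 0))

end Fdim
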