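import Pool.Agent.Work.MP_f714fc_ag.Sch.Ring

/-!
# Statements of the modules on the scheme `Y(A, t)` (skeleton, not to be imported)
-/

open CategoryTheory Limits TopologicalSpace AlgebraicGeometry Opposite MvPolynomial
open HomogeneousLocalization

attribute [-instance] CategoryTheory.catToReflQuiver

namespace Fdim

variable {A : Type} [CommRing A] (t : A)

/-! ## R1. `Sch/RtBasic.lean` -/

theorem mem_gr_zero {r : Rt t} : r ∈ gr t 0 ↔ ∃ a : A, algebraMap A (Rt t) a = r := sorry

theorem bijective_algebraMap_gr_zero : Function.Bijective (algebraMap A (gr t 0)) := sorry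

instance finiteType_Rt : Algebra.FiniteType (gr t 0) (Rt t) := sorry

theorem adjoin_ge : Algebra.adjoin (gr t 0) (Set.range (ge t)) = ⊤ := sorry

/-- uses `(z p T)^2 = (q T) (p T) - t (z T) (p T)` and `(q T)^2 = (z q T) (z p T) + t (z q T) T` -/
theorem sup_basicOpen_ge :
    Proj.basicOpen (gr t) (ge t 0) ⊔ Proj.basicOpen (gr t) (ge t 2) ⊔
      Proj.basicOpen (gr t) (ge t 1) ⊔ Proj.basicOpen (gr t) (ge t 5) = ⊤ := sorry

/-- the fraction `g_j / g_i` -/
noncomputable def fr (i j : Fin 6) : Away (gr t) (ge t i) :=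
  Away.mk (gr t) (ge_mem t i) 1 (ge t j) (by simpa using ge_mem t j)

/-- constants in the ring of a chart -/
noncomputable def cst (i : Fin 6) : A →+* Away (gr t) (ge t i) :=
  (fromZeroRingHom (gr t) _).comp (algebraMap A (gr t 0))

/-! ## R2. `Sch/RtAway.lean` (A a domain): the four charts are affine planes -/

theorem bij_chart0 [IsDomain A] :
    Function.Bijective (eval₂Hom (cst t 0) ![fr t 0 1, fr t 0 2]) := sorry

theorem bij_chart1 [IsDomain A] :
    Function.Bijective (eval₂Hom (cst t 2) ![fr t 2 3, fr t 2 0]) := sorry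

theorem bij_chart2 [IsDomain A] :
    Function.Bijective (eval₂Hom (cst t 1) ![fr t 1 0, fr t 1 5]) := sorry

theorem bij_chart3 [IsDomain A] :
    Function.Bijective (eval₂Hom (cst t 5) ![fr t 5 4, fr t 5 1]) := sorry

/-! ## R3. `Sch/YtCharts.lean`: `U 0 = D_+(g_0)`, `U 1 = D_+(g_2)`, `U 2 = D_+(g_1)`,
`U 3 = D_+(g_5)`, coordinates = `Proj.awayToSection` of the fractions of R2; restriction to
overlaps by `Proj.awayMap_awayToSection`, `U i ⊓ U j = basicOpen` by
`Proj.awayι_preimage_basicOpen` or `Away.isLocalization_mul`. -/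

noncomputable def Yt.charts [IsDomain A] : YCharts (.of A) t (Yt.π t) := sorry

/-! ## R4. `Sch/YtProj.lean`: over a field `k`, `A` a `k`-algebra -/

theorem Yt.isProjective {k : Type} [Field k] [Algebra k A] :
    IsProjective k (Yt.π t) (Spec.map (CommRingCat.ofHom (algebraMap k A))) := sorry

/-! ## R5. `Sch/BaseChange.lean` -/

theorem YCharts.baseChange {A A' : CommRingCat.{0}} (φ : A ⟶ A') {t : A} {X X' : Scheme.{0}}
    {π : X ⟶ Spec A} {π' : X' ⟶ Spec A'} {g : X' ⟶ X} (h : IsPullback g π' π (Spec.map φ))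
    (D : YCharts A t π) : Nonempty (YCharts A' (φ.hom t) π') := sorry

theorem IsProjective.baseChange {k : Type} [CommRing k] {X S X' S' : Scheme.{0}} {π : X ⟶ S}
    {s : S ⟶ Spec (.of k)} (hp : IsProjective k π s) {π' : X' ⟶ S'} {g : X' ⟶ X} {f : S' ⟶ S}
    (h : IsPullback g π' π f) : IsProjective k π' (f ≫ s) := sorry

/-! ## R6. `Sch/YGeom.lean` -/

theorem YCharts.smooth {A : CommRingCat.{0}} {t : A} {X : Scheme.{0}} {π : X ⟶ Spec A}
    (D : YCharts A t π) : SmoothOfRelativeDimension 2 π := sorry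

theorem YCharts.isIntegral {A : CommRingCat.{0}} [IsDomain A] {t : A} {X : Scheme.{0}}
    {π : X ⟶ Spec A} (D : YCharts A t π) : IsIntegral X := sorry

theorem YCharts.topologicalKrullDim {k : Type} [Field k] {t : k} {X : Scheme.{0}}
    {π : X ⟶ Spec (.of k)} (D : YCharts (.of k) t π) : topologicalKrullDim X = 2 := sorry

theorem YCharts.isNoetherian {A : CommRingCat.{0}} [IsNoetherianRing A] {t : A} {X : Scheme.{0}}
    {π : X ⟶ Spec A} (D : YCharts A t π) : IsNoetherian X := sorry

theorem IsProjective.isProper {k : Type} [CommRing k] {X S : Scheme.{0}} {π : X ⟶ S}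
    {s : S ⟶ Spec (.of k)} (hp : IsProjective k π s) : IsProper π := sorry

end Fdim
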